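import Pool.Agent.Y148.BB.Corr

/-!
# Products of primitive motives in any bracketing
-/

open CategoryTheory AlgebraicGeometry

universe u v w

namespace Pool.Agent.Q187.AJ

open Pool.Agent.H914 Pool.Agent.H914.VarClass Pool.Agent.H914.VarClass.Obj Pool.Agent.W492.BB
  Pool.Agent.W550.Corr Pool.Agent.TH133 Pool.Agent.Y148.BB

set_option linter.unusedSectionVars false
set_option linter.unusedVariables false

variable {k : Type u} [Field k] {𝒱 : VarClass k}

section chow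

variable {C : TheoryData.{u, v, 0} 𝒱 ℚ} [hC : IsChowProj C] {X Y Z W T P V X' Y' Z' W' : 𝒱.Obj}

lemma prodMap_id (X Y : 𝒱.Obj) : prodMap (𝟙 X) (𝟙 Y) = 𝟙 (X.prod Y) := by
  apply prod_ext <;> simp

include hC

/-- Transport of the action along an isomorphism. -/
lemma act_pull_iso (f : X ⟶ Y) (g : Y ⟶ X) (h1 : f ≫ g = 𝟙 X) (h2 : g ≫ f = 𝟙 Y)
    (Γ : C.A (Y.prod Y)) (y : C.A Y) :
    C.act (C.pull (prodMap f f) Γ) (C.pull f y) = C.pull f (C.act Γ y) := by
  have e1 : prodMap f f ≫ prodMap g g = 𝟙 _ := by rw [prodMap_comp, h1, prodMap_id]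
  have e2 : prodMap g g ≫ prodMap f f = 𝟙 _ := by rw [prodMap_comp, h2, prodMap_id]
  have e3 : C.pull (prodMap f f) Γ * C.pull (fst X X) (C.pull f y) =
      C.pull (prodMap f f) (Γ * C.pull (fst Y Y) y) := by
    rw [map_mul, ← C.pull_comp, ← C.pull_comp, prodMap_fst]
  rw [C.act_apply, C.act_apply, e3, pull_iso C (prodMap f f) (prodMap g g) e1 e2,
    pull_iso C f g h1 h2, ← C.push_comp, ← C.push_comp, prodMap_snd]

lemma pull_prodMap_tens (f : X ⟶ X') (g : Y ⟶ Y') (f' : Z ⟶ Z') (g' : W ⟶ W')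
    (Γ : C.A (X'.prod Y')) (Δ : C.A (Z'.prod W')) :
    C.pull (prodMap (prodMap f f') (prodMap g g')) (tens C Γ Δ) =
      tens C (C.pull (prodMap f g) Γ) (C.pull (prodMap f' g') Δ) := by
  rw [tens, tens, map_mul, ← C.pull_comp, ← C.pull_comp, ← C.pull_comp, ← C.pull_comp,
    prodMap_comp, prodMap_comp, prodMap_comp, prodMap_comp, prodMap_fst, prodMap_fst, prodMap_snd,
    prodMap_snd]

/-- External products of correspondences are associative. -/
lemma pull_aI_tens (Γ : C.A (X.prod X')) (Δ : C.A (Y.prod Y')) (Θ : C.A (Z.prod Z')) :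
    C.pull (prodMap (aI X Y Z) (aI X' Y' Z')) (tens C Γ (tens C Δ Θ)) =
      tens C (tens C Γ Δ) Θ := by
  have e1 : aI X Y Z ≫ fst X (Y.prod Z) = fst (X.prod Y) Z ≫ fst X Y := lift_fst _ _
  have e2 : aI X' Y' Z' ≫ fst X' (Y'.prod Z') = fst (X'.prod Y') Z' ≫ fst X' Y' := lift_fst _ _
  have e3 : aI X Y Z ≫ snd X (Y.prod Z) ≫ fst Y Z = fst (X.prod Y) Z ≫ snd X Y := by
    simp [aI]
  have e4 : aI X' Y' Z' ≫ snd X' (Y'.prod Z') ≫ fst Y' Z' = fst (X'.prod Y') Z' ≫ snd X' Y' := by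
    simp [aI]
  have e5 : aI X Y Z ≫ snd X (Y.prod Z) ≫ snd Y Z = snd (X.prod Y) Z := by
    simp [aI]
  have e6 : aI X' Y' Z' ≫ snd X' (Y'.prod Z') ≫ snd Y' Z' = snd (X'.prod Y') Z' := by
    simp [aI]
  simp only [tens, map_mul, ← C.pull_comp, prodMap_comp, e1, e2, e3, e4, e5, e6, mul_assoc]

variable {Q : ∀ S : 𝒱.Obj, C.A (S.prod S) → Prop}

/-- The product of two products of factors is, up to an isomorphism, a product of factors. -/
lemma exists_part {n n' : ℕ} {P P' : 𝒱.Obj} {p : C.A (P.prod P)} {p' : C.A (P'.prod P')}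
    (hp : IsPart Q n P p) (hp' : IsPart Q n' P' p') :
    ∃ (R : 𝒱.Obj) (f : R ⟶ P.prod P') (g : P.prod P' ⟶ R), f ≫ g = 𝟙 _ ∧ g ≫ f = 𝟙 _ ∧
      IsPart Q (n + n') R (C.pull (prodMap f f) (tens C p p')) := by
  induction hp' with
  | factor m T r hr =>
    refine ⟨P.prod T, 𝟙 _, 𝟙 _, Category.comp_id _, Category.comp_id _, ?_⟩
    rw [prodMap_id, C.pull_id]
    exact IsPart.prod n m P T p r hp hr
  | prod n' m P' T p' r hp' hr ih =>
    obtain ⟨R, f, g, h1, h2, h3⟩ := ih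
    refine ⟨R.prod T, prodMap f (𝟙 T) ≫ aI P P' T, aJ P P' T ≫ prodMap g (𝟙 T), ?_, ?_, ?_⟩
    · rw [Category.assoc, ← Category.assoc (aI P P' T), aI_aJ, Category.id_comp, prodMap_comp, h1,
        Category.comp_id, prodMap_id]
    · rw [Category.assoc, ← Category.assoc (prodMap g (𝟙 T)), prodMap_comp, h2, Category.comp_id,
        prodMap_id, Category.id_comp, aJ_aI]
    · rw [← prodMap_comp, C.pull_comp, pull_aI_tens, pull_prodMap_tens, prodMap_id, C.pull_id,
        ← Nat.add_assoc]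
      exact IsPart.prod _ _ _ _ _ _ h3 hr

end chow

end Pool.Agent.Q187.AJ
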