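import Pool.Agent.TH133.Defs

/-!
# Bloch-Beilinson filtrations on motives generated by curves and surfaces: definitions
-/

open CategoryTheory AlgebraicGeometry

universe u v w

namespace Pool.Agent.Q187.AJS

open Pool.Agent.H914 Pool.Agent.H914.VarClass Pool.Agent.H914.VarClass.Obj Pool.Agent.W492.BB
  Pool.Agent.W550.Corr Pool.Agent.TH133

variable {k : Type u} [Field k] {𝒱 : VarClass k}

/-! ### Correspondences -/

section Chow

variable (C : TheoryData.{u, v, 0} 𝒱 ℚ) {X Y Z W : 𝒱.Obj}

/-- The class `x × y` on `X × Y`. -/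
noncomputable def cross (x : C.A X) (y : C.A Y) : C.A (X.prod Y) :=
  C.mul (C.up (fst X Y) x) (C.up (snd X Y) y)

/-- The composition of the correspondences `Γ` from `X` to `Y` and `Δ` from `Y` to `Z`. -/
noncomputable def comp (Γ : C.A (X.prod Y)) (Δ : C.A (Y.prod Z)) : C.A (X.prod Z) :=
  C.down (prodMap (fst X Y) (𝟙 Z))
    (C.mul (C.up (prodMap (snd X Y) (𝟙 Z)) Δ) (C.up (fst (X.prod Y) Z) Γ))

/-- The class of the diagonal. -/
noncomputable def diag (X : 𝒱.Obj) : C.A (X.prod X) := C.down (Obj.lift (𝟙 X) (𝟙 X)) 1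

/-- The external product of the correspondences `Γ` from `X` to `Y` and `Δ` from `Z` to `W`. -/
noncomputable def tens (Γ : C.A (X.prod Y)) (Δ : C.A (Z.prod W)) :
    C.A ((X.prod Z).prod (Y.prod W)) :=
  C.mul (C.up (prodMap (fst X Z) (fst Y W)) Γ) (C.up (prodMap (snd X Z) (snd Y W)) Δ)

/-- The correspondence `Γ` from `X` to `Y` maps `CH^j(X)` to `CH^i(Y)`. -/
def Maps (j i : ℕ) (Γ : C.A (X.prod Y)) : Prop := C.Deg (X.dim + i - j) Γ

/-- `o` is a zero-cycle of degree one on `X`: for all `Y` the push-forward of `o × Y` to `Y` is the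
fundamental class of `Y`. -/
def DegreeOne (o : C.A X) : Prop :=
  C.Deg X.dim o ∧ ∀ Y : 𝒱.Obj, C.down (snd X Y) (C.up (fst X Y) o) = 1

/-- The class `z` is a linear combination of classes `c` with `s c`. -/
def Span (s : C.A X → Prop) (z : C.A X) : Prop := z ∈ Submodule.span ℚ {c | s c}

/-- A family of subspaces of the groups `CH^j(X)`. -/
def Fam : Type _ := ∀ X : 𝒱.Obj, ℕ → Submodule ℚ (C.A X)

variable {C}

/-- The class `z` on `X` lies in the subspace of the family `N` for `X` and `j`. -/
def Fam.In (N : Fam C) (j : ℕ) (z : C.A X) : Prop := z ∈ N X j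

variable (C)

/-! ### Bloch-Beilinson filtrations -/

variable {K : Type w} [Field K] (H : WeilTheoryData.{u, v, w} C K)

/-- The class `z` is homologically trivial. -/
def Triv (z : C.A X) : Prop := H.cl z = 0

/-- The formal properties of the kernels `N` of the Abel-Jacobi maps
`CH^j(X)_hom → J^(2j-1)(X) ⊗ ℚ`: they consist of homologically trivial classes and are stable under
all correspondences; a correspondence acting as zero on `H^(2j-1)(X)` maps `CH^j(X)_hom` to the
kernel of the Abel-Jacobi map of the target; and the kernel is zero for divisors (Abel). -/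
structure IsAbelJacobiKernel (N : Fam C) : Prop where
  triv : ∀ (X : 𝒱.Obj) (j : ℕ) (z : C.A X), N.In j z → C.Deg j z ∧ Triv C H z
  stable : ∀ (X Y : 𝒱.Obj) (j i : ℕ) (Γ : C.A (X.prod Y)), Maps C j i Γ →
    ∀ z, N.In j z → N.In i (C.act Γ z)
  kills : ∀ (X Y : 𝒱.Obj) (j i : ℕ) (Γ : C.A (X.prod Y)), Maps C j i Γ → Kills H Γ (2 * j - 1) →
    ∀ z, C.Deg j z → Triv C H z → N.In i (C.act Γ z)
  abel : ∀ (X : 𝒱.Obj) (z : C.A X), N.In 1 z → z = 0

/-- `F ν` is the step `F^ν` of a Bloch-Beilinson filtration on the Chow groups of the varieties of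
the class `S`: the conditions 1 - 4 of the problem for all correspondences between varieties of the
class `S`, `N` being the kernels of the Abel-Jacobi maps. -/
structure IsBlochBeilinson (N : Fam C) (S : 𝒱.Obj → Prop) (F : ℕ → Fam C) : Prop where
  anti : ∀ X, S X → ∀ (j ν : ℕ) (z : C.A X), (F (ν + 1)).In j z → (F ν).In j z
  zero : ∀ X, S X → ∀ (j : ℕ) (z : C.A X), (F 0).In j z ↔ C.Deg j z
  one : ∀ X, S X → ∀ (j : ℕ) (z : C.A X), (F 1).In j z ↔ C.Deg j z ∧ Triv C H z
  two : ∀ X, S X → ∀ (j : ℕ) (z : C.A X), (F 2).In j z ↔ N.In j z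
  top : ∀ X, S X → ∀ (j : ℕ) (z : C.A X), (F (j + 1)).In j z → z = 0
  stable : ∀ X Y, S X → S Y → ∀ (j i ν : ℕ) (Γ : C.A (X.prod Y)), Maps C j i Γ →
    ∀ z, (F ν).In j z → (F ν).In i (C.act Γ z)
  shift : ∀ X Y, S X → S Y → ∀ (j i ν : ℕ) (Γ : C.A (X.prod Y)), Maps C j i Γ →
    Kills H Γ (2 * j - ν) → ∀ z, (F ν).In j z → (F (ν + 1)).In i (C.act Γ z)

/-- There is a Bloch-Beilinson filtration on the Chow groups of the varieties of the class `S`. -/
def HasBlochBeilinson (N : Fam C) (S : 𝒱.Obj → Prop) : Prop :=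
  ∃ F : ℕ → Fam C, IsBlochBeilinson C H N S F

/-- The varieties `X` which are dominated by a variety `Z` of the class `S`: there are
correspondences of degree zero `f` from `X` to `Z` and `g` from `Z` to `X` such that `g_* f_*` is
the identity on `CH(X)` (for example: the Chow motive of `X` is a direct summand of that
of `Z`). -/
def Dominated (S : 𝒱.Obj → Prop) (X : 𝒱.Obj) : Prop :=
  ∃ Z, S Z ∧ ∃ (f : C.A (X.prod Z)) (g : C.A (Z.prod X)), Maps C 0 0 f ∧ Maps C 0 0 g ∧
    ∀ x : C.A X, C.act g (C.act f x) = x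

/-! ### Transcendental motives of surfaces -/

/-- The theorem of Bloch and Srinivas for families over curves (it holds over uncountable
algebraically closed fields): a class on `X × T`, `T` a curve, whose restrictions to all the
fibres `X × t` vanish, is a sum of classes `x × t`. The restriction of `z` to the fibre `X × t` is
the push-forward to `X` of the intersection of `z` with `X × t`. -/
def FibreProperty : Prop :=
  ∀ (X T : 𝒱.Obj) (j : ℤ) (z : C.A (X.prod T)), T.dim = 1 → C.Deg j z →
    (∀ t : C.A T, C.Deg 1 t → C.down (fst X T) (C.mul z (C.up (snd X T) t)) = 0) →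
    Span C (fun c => ∃ (x : C.A X) (t : C.A T), C.Deg (j - 1) x ∧ C.Deg 1 t ∧ c = cross C x t) z

/-- The analogous property of a pencil of curves on the surface `S` through the point `x`: a
class on `P × S` whose restrictions to `P × T` vanish, for all the curves `T → S` which carry a
zero-cycle `o` of degree one with image `x` (such as the smooth members of the pencil), is a sum of
push-forwards of classes on products `P × T` with curves `T → S` (the normalisations of members of
the pencil). -/
def PencilProperty {S : 𝒱.Obj} (x : C.A S) : Prop :=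
  ∀ (P : 𝒱.Obj) (j : ℤ) (z : C.A (P.prod S)), C.Deg j z →
    (∀ (T : 𝒱.Obj) (i : T ⟶ S) (o : C.A T), T.dim = 1 → DegreeOne C o → C.down i o = x →
      C.up (prodMap (𝟙 P) i) z = 0) →
    Span C (fun c => ∃ (T : 𝒱.Obj) (i : T ⟶ S) (w : C.A (P.prod T)), T.dim = 1 ∧
      C.Deg (j - 1) w ∧ c = C.down (prodMap (𝟙 P) i) w) z

/-- A Chow-Kunneth decomposition `Δ = π 0 + ⋯ + π (2 dim X)` of `X` into orthogonal idempotents
such that `π i` acts as the identity on `H^i(X)` and as zero on `H^m(X)` for `m ≠ i`. -/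
structure IsChowKunneth (X : 𝒱.Obj) (π : ℕ → C.A (X.prod X)) : Prop where
  deg : ∀ i, C.Deg X.dim (π i)
  out : ∀ i, 2 * X.dim < i → π i = 0
  idem : ∀ i, comp C (π i) (π i) = π i
  orth : ∀ i j, i ≠ j → comp C (π i) (π j) = 0
  sum : ∑ i ∈ Finset.range (2 * X.dim + 1), π i = diag C X
  act_self : ∀ (i : ℕ) (a : H.A X), H.Deg i a → H.act (H.cl (π i)) a = a
  act_ne : ∀ (i : ℕ) (m : ℤ), m ≠ i → Kills H (π i) m

/-- The projector `Δ - o × T - T × o` on the motive `h^1(T)` of the curve `T`. -/
noncomputable def odd {T : 𝒱.Obj} (o : C.A T) : C.A (T.prod T) :=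
  diag C T - cross C o 1 - cross C 1 o

/-- The self-correspondence `c` of `S` is a composition `S → T → T → S` with `T` a curve, the middle
one the projector on `h^1(T)`, the others classes of codimensions `a` and `b`. -/
def ThroughCurve {S : 𝒱.Obj} (a b : ℤ) (c : C.A (S.prod S)) : Prop :=
  ∃ (T : 𝒱.Obj) (o : C.A T) (f : C.A (S.prod T)) (g : C.A (T.prod S)), T.dim = 1 ∧
    DegreeOne C o ∧ C.Deg a f ∧ C.Deg b g ∧ c = comp C f (comp C (odd C o) g)

/-- The correspondence `q` is the projector on the transcendental part `t_2(S)` of the motive of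
the surface `S` (Murre; Kahn, Murre, Pedrini): `q` is a self-dual idempotent which acts as zero on
divisors, and there are a zero-cycle `x` of degree one (a point), with a pencil of curves through
it, and a Chow-Kunneth decomposition `π` of `S` such that `π 0 = x × S`, `π 4 = S × x`, `π 1` and
`π 3` factor through the motives `h^1` of curves, `q` is a direct summand of `π 2`, and `π 2 - q`
is a linear combination of products of divisors. -/
structure IsTranscendental (S : 𝒱.Obj) (q : C.A (S.prod S)) : Prop where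
  dim_eq : S.dim = 2
  deg : C.Deg 2 q
  idem : comp C q q = q
  self_dual : C.up (sw S S) q = q
  divisor : ∀ D : C.A S, C.Deg 1 D → C.act q D = 0
  exists_ck : ∃ (x : C.A S) (π : ℕ → C.A (S.prod S)), DegreeOne C x ∧ PencilProperty C x ∧
    IsChowKunneth C H S π ∧ π 0 = cross C x 1 ∧ π 4 = cross C 1 x ∧ comp C (π 2) q = q ∧
    Span C (fun c => ∃ D D' : C.A S, C.Deg 1 D ∧ C.Deg 1 D' ∧ c = cross C D D') (π 2 - q) ∧
    Span C (ThroughCurve C 2 1) (π 1) ∧ Span C (ThroughCurve C 1 2) (π 3)

/-! ### Primitive motives -/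

variable {C}

/-- `IsFactor Q m T r`: either `T` is a curve, `m = 1` and `r` is the projector on `h^1(T)`; or
`m = 2` and `Q T r` (`T` is a surface and `r` is the projector on `t_2(T)`). -/
inductive IsFactor (Q : ∀ S : 𝒱.Obj, C.A (S.prod S) → Prop) :
    ℕ → (T : 𝒱.Obj) → C.A (T.prod T) → Prop
  | curve (T : 𝒱.Obj) (o : C.A T) (hT : T.dim = 1) (ho : DegreeOne C o) : IsFactor Q 1 T (odd C o)
  | surface (S : 𝒱.Obj) (q : C.A (S.prod S)) (h : Q S q) : IsFactor Q 2 S q

/-- `IsPrimitive Q n P p`: the variety `P` is a product of curves `T` and of surfaces `S`, and `p`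
is the external product of the projectors on the motives `h^1(T)` and `t_2(S)` of the factors, so
that `(P, p) = h^1(T_1) ⊗ ⋯ ⊗ h^1(T_s) ⊗ t_2(S_1) ⊗ ⋯ ⊗ t_2(S_r)`, the factors in any order; the
weight `n` is `s + 2r`. -/
inductive IsPrimitive (Q : ∀ S : 𝒱.Obj, C.A (S.prod S) → Prop) :
    ℕ → (P : 𝒱.Obj) → C.A (P.prod P) → Prop
  | factor (n : ℕ) (T : 𝒱.Obj) (r : C.A (T.prod T)) (hr : IsFactor Q n T r) : IsPrimitive Q n T r
  | prod (n m : ℕ) (P T : 𝒱.Obj) (p : C.A (P.prod P)) (r : C.A (T.prod T))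
      (hp : IsPrimitive Q n P p) (hr : IsFactor Q m T r) :
      IsPrimitive Q (n + m) (P.prod T) (tens C p r)

/-- The variety is a product, in any order and with any bracketing, of curves and of surfaces `S`
such that `Q S q` for some `q`. -/
inductive IsProduct (Q : ∀ S : 𝒱.Obj, C.A (S.prod S) → Prop) : 𝒱.Obj → Prop
  | curve (T : 𝒱.Obj) (hT : T.dim = 1) : IsProduct Q T
  | surface (S : 𝒱.Obj) (q : C.A (S.prod S)) (h : Q S q) : IsProduct Q S
  | prod (P P' : 𝒱.Obj) (h : IsProduct Q P) (h' : IsProduct Q P') : IsProduct Q (P.prod P')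

/-- A class of codimension `j` of the primitive motive `(P, p)` of weight `n` is zero in the
following cases: if `2 j < n`; if `2 j = n` and the class is homologically trivial; if
`2 j = n + 1` and the class lies in the kernel of the Abel-Jacobi map. -/
def Expected (N : Fam C) (n : ℕ) (P : 𝒱.Obj) (p : C.A (P.prod P)) : Prop :=
  ∀ (j : ℕ) (z : C.A P), C.Deg j z → C.act p z = z →
    (2 * j < n ∨ (2 * j = n ∧ Triv C H z) ∨ (2 * j = n + 1 ∧ N.In j z)) → z = 0

/-- The Abel-Jacobi maps are injective on `CH^j` of the primitive motives of weight `2 j - 1`. -/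
def Injective (Q : ∀ S : 𝒱.Obj, C.A (S.prod S) → Prop) (N : Fam C) (j : ℕ) : Prop :=
  ∀ (P : 𝒱.Obj) (p : C.A (P.prod P)), IsPrimitive Q (2 * j - 1) P p →
    ∀ z, N.In j z → C.act p z = z → z = 0

end Chow

end Pool.Agent.Q187.AJS
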