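import Pool.Agent.Q187.AJ.Main
import Pool.Agent.Q187.AJ.Stmt

/-!
# The main theorem in terms of the definitions of the statement
-/

open CategoryTheory AlgebraicGeometry

universe u v w

namespace Pool.Agent.Q187.AJS

open Pool.Agent.H914 Pool.Agent.H914.VarClass Pool.Agent.H914.VarClass.Obj Pool.Agent.W492.BB
  Pool.Agent.W550.Corr Pool.Agent.TH133 Pool.Agent.Q28.GL

set_option linter.unusedSectionVars false
set_option linter.unusedVariables false

variable {k : Type u} [Field k] {𝒱 : VarClass k}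

variable {C : TheoryData.{u, v, 0} 𝒱 ℚ} [hC : IsChowProj C] {K : Type w} [Field K]
  {H : WeilTheoryData.{u, v, w} C K} [hH : IsWeilProj H] {X Y Z W T P S : 𝒱.Obj}
  {N : Fam C} {Q : ∀ S : 𝒱.Obj, C.A (S.prod S) → Prop}

include hC in
lemma degreeOne_iff {o : C.A T} : DegreeOne C o ↔ C.Deg T.dim o ∧ HasDegree C o 1 := by
  constructor
  · rintro ⟨h1, h2⟩
    refine ⟨h1, fun Y => ?_⟩
    obtain ⟨q, hq⟩ := hC.degree T o h1
    have h3 : C.push (snd T Y) (C.pull (fst T Y) o) = 1 := h2 Y
    have h4 : C.push (snd T Y) (C.pull (fst T Y) o) = q • (1 : C.A Y) := (hq Y).1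
    have h5 : C.push (fst Y T) (C.pull (snd Y T) o) = q • (1 : C.A Y) := (hq Y).2
    rw [one_smul]
    exact ⟨h3, by rw [h5, ← h4, h3]⟩
  · rintro ⟨h1, h2⟩
    refine ⟨h1, fun Y => ?_⟩
    have h3 := (h2 Y).1
    rw [one_smul] at h3
    exact h3

include hC in
lemma degreeOne_of_curve {o : C.A T} (hT : T.dim = 1) :
    DegreeOne C o ↔ C.Deg 1 o ∧ HasDegree C o 1 := by
  rw [degreeOne_iff, hT]
  exact Iff.rfl

lemma kernel_conv (h : IsAbelJacobiKernel C H N) : Y148.BB.IsAbelJacobiKernel H N where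
  deg := h.triv
  stable := h.stable
  kills := h.kills
  abel := h.abel

lemma fibre_conv (h : FibreProperty C) : Y148.BB.FibreProperty C := h

include hC in
lemma pencil_conv {x : C.A S} (h : PencilProperty C x) : Y148.BB.PencilProperty C x := by
  intro P j z hz hv
  exact h P j z hz fun T i o hT ho hx =>
    hv T i o hT ((degreeOne_of_curve hT).1 ho).1 ((degreeOne_of_curve hT).1 ho).2 hx

lemma ck_conv {π : ℕ → C.A (X.prod X)} (h : IsChowKunneth C H X π) : IsCK H X π where
  deg := h.deg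
  out := h.out
  idem := h.idem
  orth := h.orth
  sum := h.sum
  act_self := h.act_self
  act_ne i m a hm ha := h.act_ne i m hm a ha

include hC in
lemma transcendental_conv {q : C.A (S.prod S)} (h : IsTranscendental C H S q) :
    Y148.BB.IsTranscendental H S q where
  dim_eq := h.dim_eq
  deg := h.deg
  idem := h.idem
  self_dual := h.self_dual
  divisor := h.divisor
  exists_ck := by
    obtain ⟨x, π, h1, h2, h3, h4, h5, h6, h7, h8, h9⟩ := h.exists_ck
    obtain ⟨h10, h11⟩ := degreeOne_iff.1 h1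
    rw [h.dim_eq] at h10
    refine ⟨x, π, h10, h11, pencil_conv h2, ck_conv h3, h4, h5, h6, h7, ?_, ?_⟩
    · refine Submodule.span_mono ?_ h8
      rintro c ⟨T, o, f, g, hT, ho, hf, hg, hc⟩
      exact ⟨T, o, f, g, hT, ((degreeOne_of_curve hT).1 ho).1, ((degreeOne_of_curve hT).1 ho).2,
        hf, hg, hc⟩
    · refine Submodule.span_mono ?_ h9
      rintro c ⟨T, o, f, g, hT, ho, hf, hg, hc⟩
      exact ⟨T, o, f, g, hT, ((degreeOne_of_curve hT).1 ho).1, ((degreeOne_of_curve hT).1 ho).2,
        hf, hg, hc⟩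

include hC in
lemma factor_conv {n : ℕ} {r : C.A (T.prod T)} : IsFactor Q n T r ↔ Y148.BB.IsFactor Q n T r := by
  constructor
  · intro h
    cases h with
    | curve _ o hT ho =>
      exact Y148.BB.IsFactor.curve T o hT ((degreeOne_of_curve hT).1 ho).1
        ((degreeOne_of_curve hT).1 ho).2
    | surface _ _ h => exact Y148.BB.IsFactor.surface T r h
  · intro h
    cases h with
    | curve _ o hT ho hd => exact IsFactor.curve T o hT ((degreeOne_of_curve hT).2 ⟨ho, hd⟩)
    | surface _ _ h => exact IsFactor.surface T r h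

include hC in
lemma primitive_conv {n : ℕ} {p : C.A (P.prod P)} :
    IsPrimitive Q n P p ↔ Y148.BB.IsPart Q n P p := by
  constructor
  · intro h
    induction h with
    | factor n T r hr => exact Y148.BB.IsPart.factor n T r (factor_conv.1 hr)
    | prod n m P T p r _ hr ih => exact Y148.BB.IsPart.prod n m P T p r ih (factor_conv.1 hr)
  · intro h
    induction h with
    | factor n T r hr => exact IsPrimitive.factor n T r (factor_conv.2 hr)
    | prod n m P T p r _ hr ih => exact IsPrimitive.prod n m P T p r ih (factor_conv.2 hr)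

lemma product_conv : IsProduct Q P ↔ AJ.IsProduct Q P := by
  constructor
  · intro h
    induction h with
    | curve T hT => exact AJ.IsProduct.curve T hT
    | surface S q h => exact AJ.IsProduct.surface S q h
    | prod P P' _ _ ih ih' => exact AJ.IsProduct.prod P P' ih ih'
  · intro h
    induction h with
    | curve T hT => exact IsProduct.curve T hT
    | surface S q h => exact IsProduct.surface S q h
    | prod P P' _ _ ih ih' => exact IsProduct.prod P P' ih ih'

lemma product_conv' : IsProduct Q = AJ.IsProduct Q := by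
  funext P
  exact propext product_conv

lemma bb_conv {𝓢 : 𝒱.Obj → Prop} : HasBlochBeilinson C H N 𝓢 ↔ HasBB H N 0 𝓢 := by
  constructor
  · rintro ⟨F, hF⟩
    refine ⟨fun X j ν => F ν X j, ⟨?_, hF.zero, hF.one, ?_, hF.stable, hF.shift⟩, ?_⟩
    · exact fun X hX j ν z hz => hF.anti X hX j ν z hz
    · intro X hX j
      ext z
      exact hF.two X hX j z
    · intro X hX j
      rw [eq_bot_iff]
      exact fun z hz => (Submodule.mem_bot _).2 (hF.top X hX j z hz)
  · rintro ⟨F, hF, ht⟩
    refine ⟨fun ν X j => F X j ν, ⟨?_, hF.zero, hF.one, ?_, ?_, hF.stable, hF.shift⟩⟩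
    · exact fun X hX j ν z hz => hF.anti X hX j ν hz
    · intro X hX j z
      have h := hF.two X hX j
      change z ∈ F X j 2 ↔ z ∈ N X j
      rw [h]
    · intro X hX j z hz
      have h := ht X hX j
      have hz' : z ∈ F X j (j + 0 + 1) := hz
      rw [h] at hz'
      exact (Submodule.mem_bot _).1 hz'

lemma dominated_conv {𝓢 : 𝒱.Obj → Prop} : Dominated C 𝓢 = Hull C 0 𝓢 := by
  funext X
  apply propext
  have e : ∀ (d : ℤ), d + ((0 : ℕ) : ℤ) - ((0 : ℕ) : ℤ) = d + ((0 : ℕ) : ℤ) := fun d => by simp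
  have e' : ∀ (d : ℤ), d + ((0 : ℕ) : ℤ) - ((0 : ℕ) : ℤ) = d - ((0 : ℕ) : ℤ) := fun d => by simp
  constructor
  · rintro ⟨Z, hZ, f, g, hf, hg, h⟩
    refine ⟨Z, hZ, f, g, ?_, ?_, h⟩
    · rw [← e]; exact hf
    · rw [← e']; exact hg
  · rintro ⟨Z, hZ, f, g, hf, hg, h⟩
    refine ⟨Z, hZ, f, g, ?_, ?_, h⟩
    · rw [← e] at hf; exact hf
    · rw [← e'] at hg; exact hg

include hC in
lemma injective_conv {j : ℕ} : Injective Q N j ↔ Y148.BB.InjectiveOnPrimitive Q N j := by
  constructor
  · exact fun h P p hp z hz => h P p (primitive_conv.2 hp) z hz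
  · exact fun h P p hp z hz => h P p (primitive_conv.1 hp) z hz

lemma expected_conv {n : ℕ} {p : C.A (P.prod P)} :
    Expected H N n P p ↔ AJ.Expected H N n P p := by
  constructor
  · intro h j z hz hp
    exact ⟨fun h1 => h j z hz hp (Or.inl h1), fun h1 h2 => h j z hz hp (Or.inr (Or.inl ⟨h1, h2⟩)),
      fun h1 h2 => h j z hz hp (Or.inr (Or.inr ⟨h1, h2⟩))⟩
  · rintro h j z hz hp (h1 | ⟨h1, h2⟩ | ⟨h1, h2⟩)
    · exact (h j z hz hp).1 h1
    · exact (h j z hz hp).2.1 h1 h2
    · exact (h j z hz hp).2.2 h1 h2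

include hC hH

theorem main (hN : IsAbelJacobiKernel C H N) (hQ : ∀ S q, Q S q → IsTranscendental C H S q) :
    (HasBlochBeilinson C H N (Dominated C (IsProduct Q)) ↔
      ∀ (n : ℕ) (P : 𝒱.Obj) (p : C.A (P.prod P)), IsPrimitive Q n P p →
        Expected H N n P p) ∧
    (FibreProperty C →
      (HasBlochBeilinson C H N (Dominated C (IsProduct Q)) ↔
        ∀ j : ℕ, 2 ≤ j → Injective Q N j) ∧
      (∀ (d : ℕ) (Z : 𝒱.Obj), (∀ j, 2 ≤ j → j ≤ d → Injective Q N j) → IsProduct Q Z →
        Z.dim ≤ d → HasBlochBeilinson C H N (Dominated C (fun Y => Y = Z))) ∧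
      (Injective Q N 2 → ∀ (S : 𝒱.Obj) (q : C.A (S.prod S)), Q S q → Triv C H q → q = 0)) := by
  obtain ⟨h1, h2⟩ := AJ.main (kernel_conv hN) (fun S q h => transcendental_conv (hQ S q h))
  rw [bb_conv, dominated_conv, product_conv']
  refine ⟨h1.trans ⟨fun h n P p hp => expected_conv.2 (h n P p (primitive_conv.1 hp)),
    fun h n P p hp => expected_conv.1 (h n P p (primitive_conv.2 hp))⟩, fun hF => ?_⟩
  obtain ⟨h3, h4, h5⟩ := h2 (fibre_conv hF)
  refine ⟨h3.trans ⟨fun h j hj => injective_conv.2 (h j hj),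
    fun h j hj => injective_conv.1 (h j hj)⟩, fun d Z h hZ hd => ?_, fun h S q hq h0 => ?_⟩
  · rw [bb_conv, dominated_conv]
    exact h4 d Z (fun j h6 h7 => injective_conv.1 (h j h6 h7)) hZ hd
  · exact h5 (injective_conv.1 h) S q hq h0

end Pool.Agent.Q187.AJS
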