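import Pool.Agent.Y148.BB.Defs

/-!
# Products of curves and surfaces, and the expected properties of their primitive motives
-/

open CategoryTheory AlgebraicGeometry

universe u v w

namespace Pool.Agent.Q187.AJ

open Pool.Agent.H914 Pool.Agent.H914.VarClass Pool.Agent.H914.VarClass.Obj Pool.Agent.W492.BB
  Pool.Agent.W550.Corr Pool.Agent.TH133 Pool.Agent.Y148.BB

variable {k : Type u} [Field k] {𝒱 : VarClass k} {C : TheoryData.{u, v, 0} 𝒱 ℚ}

/-- The variety is a product, in any order and with any bracketing, of curves and of surfaces `S`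
such that `Q S q` for some `q`. -/
inductive IsProduct (Q : ∀ S : 𝒱.Obj, C.A (S.prod S) → Prop) : 𝒱.Obj → Prop
  | curve (T : 𝒱.Obj) (hT : T.dim = 1) : IsProduct Q T
  | surface (S : 𝒱.Obj) (q : C.A (S.prod S)) (h : Q S q) : IsProduct Q S
  | prod (P P' : 𝒱.Obj) (h : IsProduct Q P) (h' : IsProduct Q P') : IsProduct Q (P.prod P')

/-- The motive `(P, p)` of weight `n` has the expected properties in all codimensions `j`:
`CH^j(P, p)` is zero if `2 j < n`, contains no homologically trivial class except zero if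
`2 j = n`, and contains no class in the kernel of the Abel-Jacobi map except zero if
`2 j = n + 1`. -/
def Expected {K : Type w} [Field K] (H : WeilTheoryData.{u, v, w} C K)
    (N : ∀ X : 𝒱.Obj, ℕ → Submodule ℚ (C.A X)) (n : ℕ) (P : 𝒱.Obj) (p : C.A (P.prod P)) : Prop :=
  ∀ (j : ℕ) (z : C.A P), C.Deg j z → C.act p z = z →
    (2 * j < n → z = 0) ∧ (2 * j = n → H.cl z = 0 → z = 0) ∧ (2 * j = n + 1 → z ∈ N P j → z = 0)

end Pool.Agent.Q187.AJ
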