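import Pool.Agent.Q187.AJ.Van
import Pool.Agent.Q187.AJ.Defs

/-!
# Chow-Kunneth decompositions of products of curves and surfaces
-/

open CategoryTheory AlgebraicGeometry

universe u v w

namespace Pool.Agent.Q187.AJ

open Pool.Agent.H914 Pool.Agent.H914.VarClass Pool.Agent.H914.VarClass.Obj Pool.Agent.W492.BB
  Pool.Agent.W550.Corr Pool.Agent.TH133 Pool.Agent.Y148.BB

set_option linter.unusedSectionVars false
set_option linter.unusedVariables false

variable {k : Type u} [Field k] {𝒱 : VarClass k}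

variable {C : TheoryData.{u, v, 0} 𝒱 ℚ} [hC : IsChowProj C] {K : Type w} [Field K]
  {H : WeilTheoryData.{u, v, w} C K} [hH : IsWeilProj H] {X Y Z W T P S : 𝒱.Obj}
  {N : ∀ X : 𝒱.Obj, ℕ → Submodule ℚ (C.A X)} {Q : ∀ S : 𝒱.Obj, C.A (S.prod S) → Prop}

lemma IsPart.isProduct {n : ℕ} {P : 𝒱.Obj} {p : C.A (P.prod P)} (h : IsPart Q n P p) :
    IsProduct Q P := by
  have hf : ∀ (m : ℕ) (T : 𝒱.Obj) (r : C.A (T.prod T)), IsFactor Q m T r → IsProduct Q T := by
    intro m T r hr
    cases hr with
    | curve _ o hT ho hd => exact IsProduct.curve T hT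
    | surface _ _ h => exact IsProduct.surface T r h
  induction h with
  | factor n T r hr => exact hf _ _ _ hr
  | prod n m P T p r _ hr ih => exact IsProduct.prod _ _ ih (hf _ _ _ hr)

/-- `Piece Q X l γ`: the self-correspondence `γ` of `X` factors through a motive of weight `l`, either
a Tate motive (`γ = D × E`), or a Tate twist `(P, p, -c)` of one of the primitive motives. -/
inductive Piece (Q : ∀ S : 𝒱.Obj, C.A (S.prod S) → Prop) (X : 𝒱.Obj) :
    ℕ → C.A (X.prod X) → Prop
  | unit (c : ℕ) (D E : C.A X) (hc : c ≤ X.dim) (hD : C.Deg ((X.dim : ℤ) - c) D)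
      (hE : C.Deg c E) : Piece Q X (2 * c) (C.ext D E)
  | part (n c : ℕ) (P : 𝒱.Obj) (p : C.A (P.prod P)) (f : C.A (X.prod P)) (g : C.A (P.prod X))
      (hp : IsPart Q n P p) (hc : n + c ≤ X.dim) (hf : C.Deg ((X.dim : ℤ) - c) f)
      (hg : C.Deg ((P.dim : ℤ) + c) g) : Piece Q X (n + 2 * c) (C.comp f (C.comp p g))

/-- The linear combinations of such correspondences. -/
noncomputable def Fac (Q : ∀ S : 𝒱.Obj, C.A (S.prod S) → Prop) (X : 𝒱.Obj) (l : ℕ) :
    Submodule ℚ (C.A (X.prod X)) := Submodule.span ℚ {γ | Piece Q X l γ}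

include hC

lemma graph_mem (f : X ⟶ Y) : C.graph f ∈ C.gr (X.prod Y) Y.dim := by
  have h := C.push_mem (Obj.lift (𝟙 X) f) (C.one_mem X)
  have e1 : (0 : ℤ) + 1 * (((X.prod Y).dim : ℤ) - (X.dim : ℤ)) = Y.dim := by
    rw [dim_prod]; push_cast; ring
  rwa [e1] at h

include hH

lemma piece_tp (hQ : ∀ S q, Q S q → IsTranscendental H S q) {l : ℕ} {γ : C.A (X.prod X)}
    (h : Piece Q X l γ) : l ≤ 2 * X.dim ∧ Piece Q X (2 * X.dim - l) (tp C γ) := by
  cases h with
  | unit c D E hc hD hE =>
    refine ⟨by omega, ?_⟩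
    have h1 : Piece Q X (2 * (X.dim - c)) (C.ext E D) := by
      refine Piece.unit (X.dim - c) E D (Nat.sub_le _ _) ?_ ?_
      · have e : (X.dim : ℤ) - ((X.dim - c : ℕ) : ℤ) = c := by omega
        rw [e]; exact hE
      · have e : ((X.dim - c : ℕ) : ℤ) = X.dim - c := by omega
        rw [e]; exact hD
    rw [tp_ext]
    have e : 2 * X.dim - 2 * c = 2 * (X.dim - c) := by omega
    rw [e]
    exact h1
  | part n c P p f g hp hc hf hg =>
    have hd := (isPure_part hQ hp).dim
    refine ⟨by omega, ?_⟩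
    have h1 : Piece Q X (n + 2 * (X.dim - n - c)) (C.comp (tp C g) (C.comp p (tp C f))) := by
      refine Piece.part n (X.dim - n - c) P p _ _ hp (by omega) ?_ ?_
      · have e : (X.dim : ℤ) - ((X.dim - n - c : ℕ) : ℤ) = P.dim + c := by omega
        rw [e]
        exact tp_mem C hg
      · have e : (P.dim : ℤ) + ((X.dim - n - c : ℕ) : ℤ) = X.dim - c := by omega
        rw [e]
        exact tp_mem C hf
    have e : 2 * X.dim - (n + 2 * c) = n + 2 * (X.dim - n - c) := by omega
    rw [e, tp_comp C (ch_comm C), tp_comp C (ch_comm C), (isPure_part hQ hp).self,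
      comp_assoc C]
    exact h1

lemma fac_tp (hQ : ∀ S q, Q S q → IsTranscendental H S q) {l : ℕ} {γ : C.A (X.prod X)}
    (h : γ ∈ Fac Q X l) : tp C γ ∈ Fac Q X (2 * X.dim - l) := by
  have h1 : Fac Q X l ≤ (Fac Q X (2 * X.dim - l)).comap (C.pull (sw X X)).toLinearMap :=
    Submodule.span_le.2 fun c hc => Submodule.subset_span (piece_tp hQ hc).2
  exact h1 h

lemma fac_zero_of_lt (hQ : ∀ S q, Q S q → IsTranscendental H S q) {l : ℕ} {γ : C.A (X.prod X)}
    (h : γ ∈ Fac Q X l) (hl : 2 * X.dim < l) : γ = 0 := by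
  have h1 : Fac Q X l ≤ (⊥ : Submodule ℚ _) :=
    Submodule.span_le.2 fun c hc => absurd (piece_tp hQ hc).1 (by omega)
  exact (Submodule.mem_bot _).1 (h1 h)

/-- External products of pieces are pieces. -/
lemma piece_tens (hQ : ∀ S q, Q S q → IsTranscendental H S q) {l l' : ℕ} {γ : C.A (X.prod X)} {γ' : C.A (Y.prod Y)} (h : Piece Q X l γ)
    (h' : Piece Q Y l' γ') : Piece Q (X.prod Y) (l + l') (tens C γ γ') := by
  have hdim : ((X.prod Y).dim : ℤ) = X.dim + Y.dim := by rw [dim_prod]; push_cast; ring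
  cases h with
  | unit c D E hc hD hE =>
    cases h' with
    | unit c' D' E' hc' hD' hE' =>
      rw [tens_ext_ext, ← Nat.mul_add]
      refine Piece.unit (c + c') _ _ (by rw [dim_prod]; omega) ?_ ?_
      · have := ext_mem' (C := C) hD hD'
        have e : ((X.prod Y).dim : ℤ) - ((c + c' : ℕ) : ℤ) = X.dim - c + (Y.dim - c') := by
          rw [hdim]; push_cast; ring
        rw [e]
        exact this
      · have := ext_mem' (C := C) hE hE'
        have e : ((c + c' : ℕ) : ℤ) = c + c' := by push_cast; ring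
        rw [e]
        exact this
    | part n c' P p f g hp hc' hf hg =>
      have e0 : tens C (C.ext D E) (C.comp f (C.comp p g)) =
          C.comp (C.comp (wg C (snd X Y) (C.pull (fst X Y) D)) f)
            (C.comp p (C.comp g (tp C (wg C (snd X Y) (C.pull (fst X Y) E))))) := by
        rw [tens_ext_left, comp_assoc C, comp_assoc C, comp_assoc C]
      have e : 2 * c + (n + 2 * c') = n + 2 * (c + c') := by ring
      rw [e0, e]
      refine Piece.part n (c + c') P p _ _ hp (by rw [dim_prod]; omega) ?_ ?_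
      · have h1 := wg_mem (C := C) (snd X Y) (C.pull_mem (fst X Y) hD)
        have h2 := comp_mem C (e := -c) (e' := -c') (gr_congr (by rw [hdim]; ring) h1)
          (gr_congr (by ring) hf)
        refine gr_congr ?_ h2
        rw [hdim]; push_cast; ring
      · have h1 := tp_mem C (wg_mem (C := C) (snd X Y) (C.pull_mem (fst X Y) hE))
        have h2 := comp_mem C (e := c') (e' := c) hg (gr_congr (by ring) h1)
        refine gr_congr ?_ h2
        push_cast; ring
  | part n c P p f g hp hc hf hg =>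
    cases h' with
    | unit c' D' E' hc' hD' hE' =>
      have e0 : tens C (C.comp f (C.comp p g)) (C.ext D' E') =
          C.comp (C.comp (wg C (fst X Y) (C.pull (snd X Y) D')) f)
            (C.comp p (C.comp g (tp C (wg C (fst X Y) (C.pull (snd X Y) E'))))) := by
        rw [tens_ext_right, comp_assoc C, comp_assoc C, comp_assoc C]
      have e : n + 2 * c + 2 * c' = n + 2 * (c + c') := by ring
      rw [e0, e]
      refine Piece.part n (c + c') P p _ _ hp (by rw [dim_prod]; omega) ?_ ?_
      · have h1 := wg_mem (C := C) (fst X Y) (C.pull_mem (snd X Y) hD')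
        have h2 := comp_mem C (e := -c') (e' := -c) (gr_congr (by rw [hdim]; ring) h1)
          (gr_congr (by ring) hf)
        refine gr_congr ?_ h2
        rw [hdim]; push_cast; ring
      · have h1 := tp_mem C (wg_mem (C := C) (fst X Y) (C.pull_mem (snd X Y) hE'))
        have h2 := comp_mem C (e := c) (e' := c') hg (gr_congr (by ring) h1)
        refine gr_congr ?_ h2
        push_cast; ring
    | part n' c' P' p' f' g' hp' hc' hf' hg' =>
      obtain ⟨R, a, b, h1, h2, hR⟩ := exists_part (C := C) hp hp'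
      have e1 : tens C p p' = C.comp (C.graph b)
          (C.comp (C.pull (prodMap a a) (tens C p p')) (tp C (C.graph b))) := by
        have h3 := wg_comp_comp b b 1 1 (C.pull (prodMap a a) (tens C p p'))
        have e2 : C.ext (X := P.prod P') (Y := P.prod P') 1 1 = 1 := by
          rw [TheoryData.ext, map_one, map_one, one_mul]
        rw [e2, mul_one, ← C.pull_comp, prodMap_comp, h2, prodMap_id, C.pull_id] at h3
        exact h3.symm
      have e0 : tens C (C.comp f (C.comp p g)) (C.comp f' (C.comp p' g')) =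
          C.comp (C.comp (tens C f f') (C.graph b)) (C.comp (C.pull (prodMap a a) (tens C p p'))
            (C.comp (tp C (C.graph b)) (tens C g g'))) := by
        rw [← tens_comp'', ← tens_comp'']
        conv_lhs => rw [e1]
        rw [comp_assoc C, comp_assoc C, comp_assoc C]
      have hdim' : ((P.prod P').dim : ℤ) = P.dim + P'.dim := by rw [dim_prod]; push_cast; ring
      have hRdim : R.dim = (P.prod P').dim := by
        rw [(isPure_part hQ hR).dim, dim_prod, (isPure_part hQ hp).dim, (isPure_part hQ hp').dim]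
      have e : n + 2 * c + (n' + 2 * c') = (n + n') + 2 * (c + c') := by ring
      rw [e0, e]
      refine Piece.part (n + n') (c + c') R _ _ _ hR (by rw [dim_prod]; omega) ?_ ?_
      · have h3 := tens_mem C hf hf'
        have h4 := comp_mem C (e := -(c + c')) (e' := 0) (gr_congr (by rw [hdim]; ring) h3)
          (gr_congr (by rw [hRdim]; ring) (graph_mem (C := C) b))
        refine gr_congr ?_ h4
        rw [hdim]; push_cast; ring
      · have h3 := tens_mem C hg hg'
        have h4 := comp_mem C (e := 0) (e' := c + c') (gr_congr (by ring) (tp_mem C (graph_mem (C := C) b)))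
          (gr_congr (by rw [hdim']; ring) h3)
        refine gr_congr ?_ h4
        push_cast; ring

lemma fac_tens (hQ : ∀ S q, Q S q → IsTranscendental H S q) {l l' : ℕ} {γ : C.A (X.prod X)}
    {γ' : C.A (Y.prod Y)} (h : γ ∈ Fac Q X l) (h' : γ' ∈ Fac Q Y l') :
    tens C γ γ' ∈ Fac Q (X.prod Y) (l + l') := by
  have h1 : ∀ δ, Piece Q X l δ → ∀ δ' ∈ Fac Q Y l', tens C δ δ' ∈ Fac Q (X.prod Y) (l + l') := by
    intro δ hδ
    have h2 : Fac Q Y l' ≤ (Fac Q (X.prod Y) (l + l')).comap (tensL (C := C) δ) :=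
      Submodule.span_le.2 fun c hc => Submodule.subset_span (piece_tens hQ hδ hc)
    exact fun δ' hδ' => h2 hδ'
  have h3 : Fac Q X l ≤ (Fac Q (X.prod Y) (l + l')).comap ((tensL (C := C)).flip γ') :=
    Submodule.span_le.2 fun c hc => h1 c hc γ' h'
  exact h3 h

/-- The Chow-Kunneth decompositions of products of curves and surfaces. -/
lemma exists_ck (hQ : ∀ S q, Q S q → IsTranscendental H S q) (hZ : IsProduct Q Z) :
    ∃ π, IsCK H Z π ∧ ∀ l, π l ∈ Fac Q Z l := by
  induction hZ with
  | curve T hT =>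
    obtain ⟨o, ho', ho1, ho2⟩ := exists_deg_one C T
    have ho : C.Deg 1 o := by
      rw [hT] at ho'
      exact_mod_cast ho'
    have hd : HasDegree C o 1 := fun Y => by
      rw [one_smul]
      exact ⟨ho2 Y, ho1 Y⟩
    refine ⟨curveCK C o, curveCK_isCK H hT ho hd, fun l => ?_⟩
    match l with
    | 0 =>
      refine Submodule.subset_span (Piece.unit 0 o 1 (Nat.zero_le _) ?_ ?_)
      · rw [hT]; simpa using ho
      · have := C.one_mem T
        exact_mod_cast this
    | 1 =>
      have h1 : Piece Q T (1 + 2 * 0) (C.comp (dg C T) (C.comp (oddProj C o) (dg C T))) := by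
        refine Piece.part 1 0 T (oddProj C o) (dg C T) (dg C T)
          (IsPart.factor 1 T _ (IsFactor.curve T o hT ho hd)) (by rw [hT]) ?_ ?_
        · have := dg_mem C T
          simpa using this
        · have := dg_mem C T
          simpa using this
      rw [comp_dg, dg_comp] at h1
      exact Submodule.subset_span h1
    | 2 =>
      refine Submodule.subset_span (Piece.unit 1 1 o (by rw [hT]) ?_ ?_)
      · rw [hT]
        have := C.one_mem T
        simpa using this
      · exact_mod_cast ho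
    | (l + 3) => exact Submodule.zero_mem _
  | surface S q h =>
    have hT := hQ S q h
    obtain ⟨x, π, hx, hdx, hpen, hCK, h0, h4, h2, h22, h1, h3⟩ := hT.exists_ck
    have hS := hT.dim_eq
    refine ⟨π, hCK, fun l => ?_⟩
    match l with
    | 0 =>
      rw [h0]
      refine Submodule.subset_span (Piece.unit 0 x 1 (Nat.zero_le _) ?_ ?_)
      · rw [hS]; simpa using hx
      · have := C.one_mem S
        exact_mod_cast this
    | 1 =>
      refine Submodule.span_mono ?_ h1
      rintro c ⟨T, o, f, g, hT1, ho, hd, hf, hg, rfl⟩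
      refine Piece.part 1 0 T (oddProj C o) f g
        (IsPart.factor 1 T _ (IsFactor.curve T o hT1 ho hd)) (by rw [hS]; norm_num) ?_ ?_
      · rw [hS]; simpa using hf
      · rw [hT1]; simpa using hg
    | 2 =>
      have h5 : π 2 - q ∈ Fac Q S 2 := by
        refine Submodule.span_mono ?_ h22
        rintro c ⟨D, D', hD, hD', rfl⟩
        refine Piece.unit 1 D D' (by rw [hS]; norm_num) ?_ ?_
        · rw [hS]
          have e : ((2 : ℕ) : ℤ) - ((1 : ℕ) : ℤ) = 1 := by norm_num
          rw [e]; exact hD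
        · exact_mod_cast hD'
      have h6 : q ∈ Fac Q S 2 := by
        have h7 : Piece Q S (2 + 2 * 0) (C.comp (dg C S) (C.comp q (dg C S))) := by
          refine Piece.part 2 0 S q (dg C S) (dg C S)
            (IsPart.factor 2 S _ (IsFactor.surface S q h)) (by rw [hS]) ?_ ?_
          · have := dg_mem C S
            simpa using this
          · have := dg_mem C S
            simpa using this
        rw [comp_dg, dg_comp] at h7
        exact Submodule.subset_span h7
      have h8 := Submodule.add_mem _ h5 h6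
      rwa [sub_add_cancel] at h8
    | 3 =>
      refine Submodule.span_mono ?_ h3
      rintro c ⟨T, o, f, g, hT1, ho, hd, hf, hg, rfl⟩
      refine Piece.part 1 1 T (oddProj C o) f g
        (IsPart.factor 1 T _ (IsFactor.curve T o hT1 ho hd)) (by rw [hS]) ?_ ?_
      · rw [hS]
        have e : ((2 : ℕ) : ℤ) - ((1 : ℕ) : ℤ) = 1 := by norm_num
        rw [e]; exact hf
      · rw [hT1]
        have e : ((1 : ℕ) : ℤ) + ((1 : ℕ) : ℤ) = 2 := by norm_num
        rw [e]; exact hg
    | 4 =>
      rw [h4]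
      refine Submodule.subset_span (Piece.unit 2 1 x (by rw [hS]) ?_ ?_)
      · rw [hS]
        have := C.one_mem S
        simpa using this
      · exact_mod_cast hx
    | (l + 5) =>
      rw [hCK.out (l + 5) (by rw [hS]; omega)]
      exact Submodule.zero_mem _
  | prod P P' _ _ ih ih' =>
    obtain ⟨π, hπ, h1⟩ := ih
    obtain ⟨ρ, hρ, h2⟩ := ih'
    refine ⟨prodCK C π ρ, hπ.prod hρ, fun l => ?_⟩
    unfold prodCK
    refine Submodule.sum_mem _ fun i hi => ?_
    rw [Finset.mem_range] at hi
    have h3 := fac_tens hQ (h1 i) (h2 (l - i))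
    have e : i + (l - i) = l := by omega
    rwa [e] at h3

/-! ### The action of the pieces on the Chow groups -/

variable (hQ : ∀ S q, Q S q → IsTranscendental H S q)
include hQ

omit hQ in
lemma fac_act {l : ℕ} {z : C.A Z} (h : ∀ γ, Piece Q Z l γ → C.act γ z = 0) {γ : C.A (Z.prod Z)}
    (hγ : γ ∈ Fac Q Z l) : C.act γ z = 0 := by
  have h1 : Fac Q Z l ≤ LinearMap.ker ((actB C).flip z) :=
    Submodule.span_le.2 fun c hc => LinearMap.mem_ker.2 (h c hc)
  exact LinearMap.mem_ker.1 (h1 hγ)

omit hQ in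
/-- The action of a piece in terms of the class `act f z` of codimension `j - c`. -/
lemma part_act {c j : ℕ} {p : C.A (P.prod P)} {f : C.A (Z.prod P)} {g : C.A (P.prod Z)}
    (hf : C.Deg ((Z.dim : ℤ) - c) f) {z : C.A Z} (hz : C.Deg j z)
    (h : c ≤ j → C.act p (C.act f z) = 0) : C.act (C.comp f (C.comp p g)) z = 0 := by
  rw [C.act_comp, C.act_comp]
  by_cases hc : c ≤ j
  · rw [h hc, C.act_map_zero]
  · have h1 := act_mem' C (e := -c) (gr_congr (by ring) hf) hz
    rw [C.gr_neg P _ (by omega), Submodule.mem_bot] at h1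
    rw [h1, C.act_map_zero, C.act_map_zero]

omit hQ in
lemma deg_f {c j : ℕ} {f : C.A (Z.prod P)} (hf : C.Deg ((Z.dim : ℤ) - c) f) (hc : c ≤ j) {z : C.A Z}
    (hz : C.Deg j z) : C.Deg ((j - c : ℕ) : ℤ) (C.act f z) := by
  have h1 := act_mem' C (e := -c) (gr_congr (by ring) hf) hz
  refine gr_congr ?_ h1
  omega

variable (hN : IsAbelJacobiKernel H N)

/-- In degrees above `2 j`. -/
lemma fac_big {l j : ℕ} {b : ℕ} (hPV : ∀ (j n : ℕ) (P : 𝒱.Obj) (p : C.A (P.prod P)), IsPart Q n P p →
    n ≤ b → PV H N n P p j) (hb : Z.dim ≤ b) {γ : C.A (Z.prod Z)} (hγ : γ ∈ Fac Q Z l) (hl : 2 * j < l) {z : C.A Z}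
    (hz : C.Deg j z) : C.act γ z = 0 := by
  refine fac_act (H := H) (fun γ hγ => ?_) hγ
  cases hγ with
  | unit c D E hc hD hE =>
    exact act_ext_zero_of_lt (C.mul_mem hD hz) (by omega)
  | part n c P p f g hp hc hf hg =>
    refine part_act (H := H) hf hz fun hcj => ?_
    exact (hPV (j - c) n P p hp (by omega)).big (by omega) _ (deg_f (H := H) hf hcj hz)

/-- In degree `2 j`, on homologically trivial classes. -/
lemma fac_eq {l j : ℕ} {b : ℕ} (hPV : ∀ (j n : ℕ) (P : 𝒱.Obj) (p : C.A (P.prod P)), IsPart Q n P p →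
    n ≤ b → PV H N n P p j) (hb : Z.dim ≤ b) {γ : C.A (Z.prod Z)} (hγ : γ ∈ Fac Q Z l) (hl : l = 2 * j) {z : C.A Z}
    (hz : C.Deg j z) (h0 : H.cl z = 0) : C.act γ z = 0 := by
  refine fac_act (H := H) (fun γ hγ => ?_) hγ
  cases hγ with
  | unit c D E hc hD hE =>
    have h1 : D * z ∈ C.gr Z Z.dim := gr_congr (by omega) (C.mul_mem hD hz)
    have h2 : H.cl (D * z) = 0 := by rw [map_mul, h0, mul_zero]
    rw [act_ext' (hasDegree_zero_of_cl H h1 h2), zero_smul]
  | part n c P p f g hp hc hf hg =>
    refine part_act (H := H) hf hz fun hcj => ?_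
    refine (hPV (j - c) n P p hp (by omega)).eq (by omega) _ (deg_f (H := H) hf hcj hz) ?_
    rw [cl_act H, h0, TheoryData.act_map_zero]

include hN in
/-- In degree `2 j - 1`, on the kernel of the Abel-Jacobi map. -/
lemma fac_aj {l j : ℕ} {b : ℕ} (hPV : ∀ (j n : ℕ) (P : 𝒱.Obj) (p : C.A (P.prod P)), IsPart Q n P p →
    n ≤ b → PV H N n P p j) (hb : Z.dim ≤ b) {γ : C.A (Z.prod Z)} (hγ : γ ∈ Fac Q Z l) (hl : l + 1 = 2 * j) {z : C.A Z}
    (hz : z ∈ N Z j) : C.act γ z = 0 := by
  refine fac_act (H := H) (fun γ hγ => ?_) hγ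
  cases hγ with
  | unit c D E hc hD hE => omega
  | part n c P p f g hp hc hf hg =>
    refine part_act (H := H) hf (hN.deg Z j z hz).1 fun hcj => ?_
    refine (hPV (j - c) n P p hp (by omega)).aj (by omega) _ ?_
    refine hN.stable Z P j (j - c) f (gr_congr ?_ hf) z hz
    omega

/-- In degrees below `j`. -/
lemma fac_small {l j : ℕ} {γ : C.A (Z.prod Z)} (hγ : γ ∈ Fac Q Z l) (hl : l < j) {z : C.A Z}
    (hz : C.Deg j z) : C.act γ z = 0 := by
  refine fac_act (H := H) (fun γ hγ => ?_) hγ
  cases hγ with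
  | unit c D E hc hD hE =>
    exact act_ext_zero_of_lt (C.mul_mem hD hz) (by omega)
  | part n c P p f g hp hc hf hg =>
    refine part_act (H := H) hf hz fun hcj => ?_
    have h1 := (isPure_part hQ hp).dim
    rw [hC.gr_top P _ _ (deg_f (H := H) hf hcj hz) (by omega), C.act_map_zero]

end Pool.Agent.Q187.AJ
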