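import Pool.Agent.Q187.AJ.Fac

/-!
# Bloch-Beilinson filtrations on motives generated by curves and surfaces
-/

open CategoryTheory AlgebraicGeometry

universe u v w

namespace Pool.Agent.Q187.AJ

open Pool.Agent.H914 Pool.Agent.H914.VarClass Pool.Agent.H914.VarClass.Obj Pool.Agent.W492.BB
  Pool.Agent.W550.Corr Pool.Agent.TH133 Pool.Agent.Y148.BB Pool.Agent.Q28.GL

set_option linter.unusedSectionVars false
set_option linter.unusedVariables false

variable {k : Type u} [Field k] {𝒱 : VarClass k}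

variable {C : TheoryData.{u, v, 0} 𝒱 ℚ} [hC : IsChowProj C] {K : Type w} [Field K]
  {H : WeilTheoryData.{u, v, w} C K} [hH : IsWeilProj H] {X Y Z W T P S : 𝒱.Obj}
  {N : ∀ X : 𝒱.Obj, ℕ → Submodule ℚ (C.A X)} {Q : ∀ S : 𝒱.Obj, C.A (S.prod S) → Prop}

include hC hH

/-- Correspondences between the pieces raising the weight too much are zero. -/
lemma comp_comp_zero (hQ : ∀ S q, Q S q → IsTranscendental H S q)
    {b : ℕ} (hPV : ∀ (j n : ℕ) (P : 𝒱.Obj) (p : C.A (P.prod P)), IsPart Q n P p → n ≤ b →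
      PV H N n P p j) (hb : 2 * Z.dim ≤ b)
    {l l' i j : ℕ} {γ γ' : C.A (Z.prod Z)} (hγ' : γ' ∈ Fac Q Z l') (hγ : γ ∈ Fac Q Z l)
    {M : C.A (Z.prod Z)} (hM : C.Deg (Z.dim + (i : ℤ) - j) M)
    (h : l' + 2 * i < l + 2 * j ∨ (l' + 2 * i = l + 2 * j ∧ H.cl M = 0)) :
    C.comp γ' (C.comp M γ) = 0 := by
  by_cases hl' : 2 * Z.dim < l'
  · rw [fac_zero_of_lt hQ hγ' hl', zero_comp]
  have h1 : C.act (tens C (tp C γ') γ) M = C.comp γ' (C.comp M γ) := by
    rw [act_tens C (ch_comm C), tp_tp, comp_assoc C]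
  rw [← h1]
  have h2 := fac_tens hQ (fac_tp hQ hγ') hγ
  by_cases hneg : Z.dim + i < j
  · have h3 : M ∈ C.gr (Z.prod Z) (Z.dim + (i : ℤ) - j) := hM
    rw [C.gr_neg _ _ (by omega), Submodule.mem_bot] at h3
    rw [h3, C.act_map_zero]
  have hM' : C.Deg ((Z.dim + i - j : ℕ) : ℤ) M := by
    have e : ((Z.dim + i - j : ℕ) : ℤ) = Z.dim + (i : ℤ) - j := by omega
    rw [e]; exact hM
  rcases h with h | ⟨h, h0⟩
  · exact fac_big hQ hPV (by rw [dim_prod]; omega) h2 (by omega) hM'
  · exact fac_eq hQ hPV (by rw [dim_prod]; omega) h2 (by omega) hM' h0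

variable (hN : IsAbelJacobiKernel H N)
include hN

/-- The classes reached in `ν` steps lie in the step `ν` of the filtration of a Chow-Kunneth
decomposition. -/
lemma reach_ck (hQ : ∀ S q, Q S q → IsTranscendental H S q)
    {b : ℕ} (hPV : ∀ (j n : ℕ) (P : 𝒱.Obj) (p : C.A (P.prod P)), IsPart Q n P p → n ≤ b →
      PV H N n P p j) (hb : 2 * Z.dim ≤ b)
    {π : ℕ → C.A (Z.prod Z)} (hπ : IsCK H Z π) (hf : ∀ l, π l ∈ Fac Q Z l) {ν j : ℕ} {z : C.A Z}
    (h : Reach H N Z ν j z) : ∀ l, 2 * j < l + ν → C.act (π l) z = 0 := by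
  induction h with
  | base j z hz =>
    intro l hl
    obtain ⟨h1, h2⟩ := hN.deg Z j z hz
    rcases Nat.lt_or_ge (2 * j) l with h3 | h3
    · exact fac_big hQ hPV (by omega) (hf l) h3 h1
    · rcases Nat.eq_or_lt_of_le h3 with h4 | h4
      · exact fac_eq hQ hPV (by omega) (hf l) h4 h1 h2
      · exact fac_aj hQ hN hPV (by omega) (hf l) (by omega) hz
  | step ν j i z Γ h hΓ hk ih =>
    intro l hl
    have h1 : z = ∑ l' ∈ Finset.range (2 * Z.dim + 1), C.act (π l') z := by
      rw [← act_sum, hπ.sum, act_dg]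
    rw [h1, act_map_sum, act_map_sum]
    refine Finset.sum_eq_zero fun l' _ => ?_
    by_cases h2 : 2 * j < l' + ν
    · rw [ih l' h2, C.act_map_zero, C.act_map_zero]
    · rw [← C.act_comp, ← C.act_comp]
      by_cases h3 : l' + 2 * i < l + 2 * j
      · rw [comp_comp_zero (N := N) hQ hPV hb (hf l') (hf l) hΓ (Or.inl h3), TheoryData.act_zero]
      · have hΓ' : C.Deg (Z.dim + (i : ℤ) - j) (C.comp (π l') (C.comp Γ (π l))) := by
          have h4 : C.Deg (Z.dim + (i : ℤ) - i) (π l) := by simpa using hπ.deg l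
          have h5 : C.Deg (Z.dim + (j : ℤ) - j) (π l') := by simpa using hπ.deg l'
          exact comp_deg h5 (comp_deg hΓ h4)
        have h6 : H.cl (C.comp (π l') (C.comp Γ (π l))) = 0 := by
          apply hom_zero_of_act H
          have key : (H.actL (H.cl (C.comp (π l') (C.comp Γ (π l)))) : H.A Z →ₗ[K] H.A Z) = 0 := by
            apply ext_gr H
            intro m a ha
            rw [TheoryData.actL_apply, LinearMap.zero_apply, TH133.actH_comp, TH133.actH_comp,
              hπ.actH_eq _ _ ha]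
            split_ifs with hm
            · rw [hk a (by
                have e : (2 * (j : ℤ) - ν) = m := by omega
                rw [e]; exact ha), H.act_map_zero]
            · rw [H.act_map_zero, H.act_map_zero]
          exact fun a => LinearMap.congr_fun key a
        have h7 : C.comp (π l') (C.comp (C.comp (π l') (C.comp Γ (π l))) (π l)) =
            C.comp (π l') (C.comp Γ (π l)) := by
          rw [comp_assoc C (π l'), comp_assoc C Γ, hπ.idem, ← comp_assoc C (π l'), hπ.idem]
        rw [← h7, comp_comp_zero (N := N) hQ hPV hb (hf l') (hf l) hΓ' (Or.inr ⟨by omega, h6⟩),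
          TheoryData.act_zero]

/-- Products of curves and surfaces have a Bloch-Beilinson filtration with respect to their
self-correspondences. -/
lemma chainsVanish (hQ : ∀ S q, Q S q → IsTranscendental H S q)
    {b : ℕ} (hPV : ∀ (j n : ℕ) (P : 𝒱.Obj) (p : C.A (P.prod P)), IsPart Q n P p → n ≤ b →
      PV H N n P p j) (hb : 2 * Z.dim ≤ b)
    (hZ : IsProduct Q Z) : ChainsVanish H N Z := by
  intro j z hz
  obtain ⟨π, hπ, hf⟩ := exists_ck hQ hZ
  have h1 : z = ∑ l' ∈ Finset.range (2 * Z.dim + 1), C.act (π l') z := by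
    rw [← act_sum, hπ.sum, act_dg]
  rw [h1]
  refine Finset.sum_eq_zero fun l _ => ?_
  by_cases hl : l < j
  · exact fac_small hQ (hf l) hl (hz.deg hN)
  · exact reach_ck hN hQ hPV hb hπ hf hz l (by omega)

omit hN hH in
lemma directed_product : Directed C (IsProduct Q) := fun X Y hX hY =>
  ⟨X.prod Y, IsProduct.prod X Y hX hY, dominates_prod_left X Y, dominates_prod_right X Y⟩

/-- A filtration forces the vanishing of the pure motives. -/
lemma pv_of_hasBB (hQ : ∀ S q, Q S q → IsTranscendental H S q) {𝓢 : 𝒱.Obj → Prop}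
    (h : HasBB H N 0 𝓢) {n : ℕ} {p : C.A (P.prod P)} (hp : IsPart Q n P p) (hP : 𝓢 P) (j : ℕ) :
    PV H N n P p j := by
  obtain ⟨F, hF, htop⟩ := h
  have hpure := isPure_part hQ hp
  have key : ∀ (ν : ℕ) (z : C.A P), 2 * j < n + ν → z ∈ F P j ν → C.act p z = z → z = 0 := by
    intro ν z hν hz hpz
    have h1 : ∀ μ : ℕ, z ∈ F P j (ν + μ) := by
      intro μ
      induction μ with
      | zero => exact hz
      | succ μ ih =>
        have h2 := hF.shift P P hP hP j j (ν + μ) p (by simpa using hpure.mem)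
          (hpure.kills _ (by push_cast; omega)) z ih
        rwa [hpz] at h2
    have h3 : ∀ μ : ℕ, F P j (j + 0 + 1 + μ) ≤ F P j (j + 0 + 1) := by
      intro μ
      induction μ with
      | zero => exact le_rfl
      | succ μ ih => exact (hF.anti P hP j _).trans ih
    have h4 := h1 (j + 0 + 1)
    rw [Nat.add_comm ν] at h4
    have h5 := h3 ν h4
    rw [htop P hP j] at h5
    exact (Submodule.mem_bot _).1 h5
  have idem : ∀ z, C.act p (C.act p z) = C.act p z := fun z => by rw [← C.act_comp, hpure.idem]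
  have st : ∀ (ν : ℕ) (z : C.A P), z ∈ F P j ν → C.act p z ∈ F P j ν := fun ν z hz =>
    hF.stable P P hP hP j j ν p (by simpa using hpure.mem) z hz
  refine ⟨fun hj z hz => ?_, fun hj z hz h0 => ?_, fun hj z hz => ?_⟩
  · exact key 0 _ (by omega) (st 0 z ((hF.zero P hP j z).2 hz)) (idem z)
  · exact key 1 _ (by omega) (st 1 z ((hF.one P hP j z).2 ⟨hz, h0⟩)) (idem z)
  · refine key 2 _ (by omega) (st 2 z ?_) (idem z)
    rw [hF.two P hP j]
    exact hz

/-- Over any field: the filtration exists if and only if the pure motives have the expected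
properties. -/
theorem hasBB_iff_pv (hQ : ∀ S q, Q S q → IsTranscendental H S q) :
    HasBB H N 0 (Hull C 0 (IsProduct Q)) ↔ ∀ (j n : ℕ) (P : 𝒱.Obj) (p : C.A (P.prod P)),
      IsPart Q n P p → PV H N n P p j := by
  constructor
  · intro h j n P p hp
    exact pv_of_hasBB hN hQ h hp (hull_of_mem (IsPart.isProduct hp)) j
  · intro hPV
    rw [glue hN directed_product]
    exact fun Z hZ => (own_iff_chains hN Z).2
      (chainsVanish hN hQ (fun j n P p hp _ => hPV j n P p hp) le_rfl hZ)

/-- Over an uncountable field. -/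
theorem hasBB_iff_injective (hF : FibreProperty C)
    (hQ : ∀ S q, Q S q → IsTranscendental H S q) :
    HasBB H N 0 (Hull C 0 (IsProduct Q)) ↔ ∀ j : ℕ, 2 ≤ j → InjectiveOnPrimitive Q N j := by
  rw [hasBB_iff_pv hN hQ]
  constructor
  · intro h j hj P p hp z hz hpz
    rw [← hpz]
    exact (h j _ P p hp).aj (by omega) z hz
  · intro h j n P p hp
    exact pv_all hN hF hQ (d := j) (fun i h2 _ => h i h2) j le_rfl n P p hp

/-- The version in bounded dimensions. -/
theorem hasBB_of_upTo (hF : FibreProperty C) (hQ : ∀ S q, Q S q → IsTranscendental H S q) {d : ℕ}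
    (h : InjectiveUpTo Q N d) (hZ : IsProduct Q Z) (hd : Z.dim ≤ d) :
    HasBB H N 0 (Hull C 0 (fun Y => Y = Z)) := by
  have hdir : Directed C (fun Y => Y = Z) := by
    rintro X Y rfl rfl
    exact ⟨Y, rfl, Dominates.refl Y, Dominates.refl Y⟩
  refine (glue hN hdir).2 ?_
  rintro Y rfl
  refine (own_iff_chains hN Y).2 (chainsVanish hN hQ (b := 2 * d) (fun j n P p hp hn => ?_)
    (by omega) hZ)
  by_cases hj : j ≤ d
  · exact pv_all hN hF hQ h j hj n P p hp
  · exact ⟨fun h1 => absurd h1 (by omega), fun h1 => absurd h1 (by omega),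
      fun h1 => absurd h1 (by omega)⟩

/-- Bloch's conjecture for surfaces from the injectivity of the Abel-Jacobi maps in codimension
two. -/
theorem bloch (hF : FibreProperty C) (hQ : ∀ S q, Q S q → IsTranscendental H S q)
    (h : InjectiveOnPrimitive Q N 2) {q : C.A (S.prod S)} (hq : Q S q) (h0 : H.cl q = 0) :
    q = 0 := by
  have h1 : InjectiveUpTo Q N 2 := fun j h2 h3 => by
    obtain rfl : j = 2 := by omega
    exact h
  have hfac : IsFactor Q 2 S q := IsFactor.surface S q hq
  have hp : IsPart Q (2 + 2) (S.prod S) (tens C q q) :=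
    IsPart.prod 2 2 S S q q (IsPart.factor 2 S q hfac) hfac
  have hpure := isPure_factor hQ hfac
  have h2 := (pv_all hN hF hQ h1 2 le_rfl _ _ _ hp).eq rfl q (by
    have := hpure.mem
    rw [hpure.dim] at this
    exact this) h0
  rw [act_curry q q hpure.self, hpure.idem, hpure.idem] at h2
  exact h2

lemma expected_iff (hQ : ∀ S q, Q S q → IsTranscendental H S q) {n : ℕ} {p : C.A (P.prod P)}
    (hp : IsPart Q n P p) : Expected H N n P p ↔ ∀ j, PV H N n P p j := by
  have hpure := isPure_part hQ hp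
  have idem : ∀ z, C.act p (C.act p z) = C.act p z := fun z => by rw [← C.act_comp, hpure.idem]
  constructor
  · intro h j
    refine ⟨fun hj z hz => ?_, fun hj z hz h0 => ?_, fun hj z hz => ?_⟩
    · exact (h j _ (act_mem0 C hpure.mem hz) (idem z)).1 hj
    · refine (h j _ (act_mem0 C hpure.mem hz) (idem z)).2.1 hj ?_
      rw [cl_act H, h0, TheoryData.act_map_zero]
    · exact (h j _ (act_mem0 C hpure.mem (hN.deg P j z hz).1) (idem z)).2.2 hj
        (stable0 hN hpure.mem hz)
  · intro h j z hz hpz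
    refine ⟨fun hj => ?_, fun hj h0 => ?_, fun hj hzN => ?_⟩
    · rw [← hpz]; exact (h j).big hj z hz
    · rw [← hpz]; exact (h j).eq hj z hz h0
    · rw [← hpz]; exact (h j).aj hj z hzN

theorem main (hQ : ∀ S q, Q S q → IsTranscendental H S q) :
    (HasBB H N 0 (Hull C 0 (IsProduct Q)) ↔
      ∀ (n : ℕ) (P : 𝒱.Obj) (p : C.A (P.prod P)), IsPart Q n P p → Expected H N n P p) ∧
    (FibreProperty C →
      (HasBB H N 0 (Hull C 0 (IsProduct Q)) ↔ ∀ j : ℕ, 2 ≤ j → InjectiveOnPrimitive Q N j) ∧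
      (∀ (d : ℕ) (Z : 𝒱.Obj), InjectiveUpTo Q N d → IsProduct Q Z → Z.dim ≤ d →
        HasBB H N 0 (Hull C 0 (fun Y => Y = Z))) ∧
      (InjectiveOnPrimitive Q N 2 → ∀ (S : 𝒱.Obj) (q : C.A (S.prod S)), Q S q → H.cl q = 0 →
        q = 0)) := by
  refine ⟨?_, fun hF => ⟨hasBB_iff_injective hN hF hQ,
    fun d Z h hZ hd => hasBB_of_upTo hN hF hQ h hZ hd, fun h S q hq h0 => bloch hN hF hQ h hq h0⟩⟩
  rw [hasBB_iff_pv hN hQ]
  constructor
  · exact fun h n P p hp => (expected_iff hN hQ hp).2 fun j => h j n P p hp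
  · exact fun h j n P p hp => (expected_iff hN hQ hp).1 (h n P p hp) j

end Pool.Agent.Q187.AJ
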