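import Pool.Agent.Q187.AJ.Assoc
import Pool.Agent.Q28.GL.Main

/-!
# The primitive motives attached to curves and surfaces: formal properties
-/

open CategoryTheory AlgebraicGeometry

universe u v w

namespace Pool.Agent.Q187.AJ

open Pool.Agent.H914 Pool.Agent.H914.VarClass Pool.Agent.H914.VarClass.Obj Pool.Agent.W492.BB
  Pool.Agent.W550.Corr Pool.Agent.TH133 Pool.Agent.Y148.BB

set_option linter.unusedSectionVars false
set_option linter.unusedVariables false

variable {k : Type u} [Field k] {𝒱 : VarClass k}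

variable {C : TheoryData.{u, v, 0} 𝒱 ℚ} [hC : IsChowProj C] {K : Type w} [Field K]
  {H : WeilTheoryData.{u, v, w} C K} [hH : IsWeilProj H] {X Y Z W T P S : 𝒱.Obj}
  {N : ∀ X : 𝒱.Obj, ℕ → Submodule ℚ (C.A X)}

/-- A self-dual projector `p` of `P`, of degree zero and acting as zero on the cohomology outside
the degree `n = dim P`. -/
structure IsPure (H : WeilTheoryData.{u, v, w} C K) (n : ℕ) (P : 𝒱.Obj) (p : C.A (P.prod P)) :
    Prop where
  dim : P.dim = n
  pos : 1 ≤ n
  mem : p ∈ C.gr (P.prod P) P.dim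
  idem : C.comp p p = p
  self : tp C p = p
  one : C.act p 1 = 0
  kills : ∀ m : ℤ, m ≠ n → Kills H p m

include hC in
lemma act_curry (p : C.A (P.prod P)) (r : C.A (T.prod T)) (hp : tp C p = p)
    (y : C.A (P.prod T)) : C.act (tens C p r) y = C.comp (C.comp p y) r := by
  rw [act_tens C (ch_comm C), hp]

include hC hH

lemma isPure_odd {o : C.A T} (hT : T.dim = 1) (ho : C.Deg 1 o) (hd : HasDegree C o 1) :
    IsPure H 1 T (oddProj C o) where
  dim := hT
  pos := le_rfl
  mem := odd_mem hT ho
  idem := odd_odd hT ho hd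
  self := tp_odd o
  one := by
    have h1 : C.act (C.ext o (1 : C.A T)) 1 = 1 := by
      rw [act_ext' (q := 1) (by rwa [mul_one]), one_smul]
    rw [← h1, ← C.act_comp, e0_odd hT ho hd, TheoryData.act_zero]
  kills m hm a ha := by
    have h := curveCK_act H hT ho hd 1 m ha
    rw [if_neg (by exact_mod_cast hm)] at h
    exact h

/-- The properties of the projector on the transcendental motive of a surface. -/
structure IsSurf (H : WeilTheoryData.{u, v, w} C K) (S : 𝒱.Obj) (q : C.A (S.prod S)) (x : C.A S) :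
    Prop where
  pure : IsPure H 2 S q
  divisor : ∀ D : C.A S, C.Deg 1 D → C.act q D = 0
  point : C.act q x = 0
  pencil : PencilProperty C x

lemma isSurf_of {q : C.A (S.prod S)} (h : IsTranscendental H S q) : ∃ x, IsSurf H S q x := by
  obtain ⟨x, π, hx, hdx, hpen, hCK, h0, h4, h2, -⟩ := h.exists_ck
  have key : ∀ (i : ℕ) (z : C.A S), i ≠ 2 → C.act (π i) z = z → C.act q z = 0 := by
    intro i z hi hz
    rw [← hz, ← h2, ← C.act_comp, ← comp_assoc C, hCK.orth i 2 hi, zero_comp,
      TheoryData.act_zero]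
  refine ⟨x, ⟨h.dim_eq, by norm_num, by rw [h.dim_eq]; exact_mod_cast h.deg, h.idem, h.self_dual,
    key 0 1 (by norm_num) ?_, ?_⟩, h.divisor, key 4 x (by norm_num) ?_, hpen⟩
  · rw [h0, act_ext' (q := 1) (by rwa [mul_one]), one_smul]
  · intro m hm a ha
    rw [← h2, Q28.GL.actH_comp, hCK.act_ne 2 m a (by exact_mod_cast hm) ha, Q28.GL.actH_zero]
  · rw [h4, act_ext' (q := 1) (by rwa [one_mul]), one_smul]

lemma IsPure.tens {n m : ℕ} {p : C.A (P.prod P)} {r : C.A (T.prod T)} (hp : IsPure H n P p)
    (hr : IsPure H m T r) : IsPure H (n + m) (P.prod T) (tens C p r) where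
  dim := by rw [dim_prod, hp.dim, hr.dim]
  pos := by have := hp.pos; omega
  mem := by
    have := tens_mem C hp.mem hr.mem
    rw [dim_prod]
    exact_mod_cast this
  idem := by rw [tens_comp', hp.idem, hr.idem]
  self := by rw [tp_tens, hp.self, hr.self]
  one := by
    have e : (1 : C.A (P.prod T)) = C.ext 1 1 := by rw [TheoryData.ext, map_one, map_one, one_mul]
    rw [e, act_tens_ext C p r (fun f c => ch_comm C _ _), hp.one, TheoryData.ext_zero_left]
  kills l hl a ha := by
    have h1 := H.kunneth P T l ha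
    clear ha
    induction h1 using Submodule.span_induction with
    | mem x hx =>
      obtain ⟨i, a, b, ha, hb, rfl⟩ := hx
      have e0 : H.pull (fst P T) a * H.pull (snd P T) b = H.ext a b := rfl
      rw [e0, actH_tens_ext]
      by_cases hi : i = n
      · rw [hr.kills (l - i) (by omega) b hb, TheoryData.ext_zero_right]
      · rw [hp.kills i hi a ha, TheoryData.ext_zero_left]
    | zero => rw [TheoryData.act_map_zero]
    | add x y _ _ hx hy => rw [act_map_add, hx, hy, add_zero]
    | smul r x _ hx => rw [act_map_smul, hx, smul_zero]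

variable {Q : ∀ S : 𝒱.Obj, C.A (S.prod S) → Prop}

lemma isPure_factor (hQ : ∀ S q, Q S q → IsTranscendental H S q) {n : ℕ} {r : C.A (T.prod T)}
    (h : IsFactor Q n T r) : IsPure H n T r := by
  cases h with
  | curve _ o hT ho hd => exact isPure_odd hT ho hd
  | surface _ _ h => exact (isSurf_of (hQ _ _ h)).choose_spec.pure

lemma isPure_part (hQ : ∀ S q, Q S q → IsTranscendental H S q) {n : ℕ} {p : C.A (P.prod P)}
    (h : IsPart Q n P p) : IsPure H n P p := by
  induction h with
  | factor n T r hr => exact isPure_factor hQ hr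
  | prod n m P T p r _ hr ih => exact ih.tens (isPure_factor hQ hr)

/-! ### Vanishing of the Chow groups of pure motives -/

/-- The motive `(P, p)` of weight `n` has the expected properties in codimension `j`: the group
`CH^j(P, p)` is zero if `2 j < n`; it contains no homologically trivial class if `2 j = n`; and it
contains no class in the kernel of the Abel-Jacobi map if `2 j = n + 1`. -/
structure PV (H : WeilTheoryData.{u, v, w} C K) (N : ∀ X : 𝒱.Obj, ℕ → Submodule ℚ (C.A X))
    (n : ℕ) (P : 𝒱.Obj) (p : C.A (P.prod P)) (j : ℕ) : Prop where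
  big : 2 * j < n → ∀ z, C.Deg j z → C.act p z = 0
  eq : 2 * j = n → ∀ z, C.Deg j z → H.cl z = 0 → C.act p z = 0
  aj : 2 * j = n + 1 → ∀ z ∈ N P j, C.act p z = 0

variable (hN : IsAbelJacobiKernel H N)
include hN

omit hC hH in
lemma stable0 {p : C.A (P.prod P)} (hp : p ∈ C.gr (P.prod P) P.dim) {j : ℕ} {z : C.A P}
    (hz : z ∈ N P j) : C.act p z ∈ N P j :=
  hN.stable P P j j p (by simpa using hp) z hz

omit hC hH in
lemma PV.of_le {n j : ℕ} {p : C.A (P.prod P)} (h : PV H N n P p j) (hj : 2 * j ≤ n + 1) {z : C.A P}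
    (hz : z ∈ N P j) : C.act p z = 0 := by
  obtain ⟨h1, h2⟩ := hN.deg P j z hz
  rcases Nat.lt_or_ge (2 * j) n with h3 | h3
  · exact h.big h3 z h1
  · rcases Nat.eq_or_lt_of_le h3 with h4 | h4
    · exact h.eq h4.symm z h1 h2
    · exact h.aj (by omega) z hz

/-- The basic properties follow from the vanishing of the homologically trivial classes in degrees
`2 j ≤ n`. -/
lemma pv_of {n j : ℕ} {p : C.A (P.prod P)} (hp : IsPure H n P p)
    (h1 : 2 * j ≤ n → ∀ y, C.Deg j y → y ∈ N P j → C.act p y = y → y = 0)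
    (h2 : 2 ≤ j → 2 * j = n + 1 → ∀ y ∈ N P j, C.act p y = y → y = 0) : PV H N n P p j := by
  have idem : ∀ z, C.act p (C.act p z) = C.act p z := fun z => by rw [← C.act_comp, hp.idem]
  have hk : 2 * j ≤ n → ∀ z, C.Deg j z → H.cl z = 0 → C.act p z = 0 := by
    intro hj z hz h0
    refine h1 hj _ (act_mem0 C hp.mem hz) ?_ (idem z)
    exact hN.kills P P j j p (by simpa using hp.mem) (hp.kills _ (by omega)) z hz h0
  refine ⟨fun hj z hz => ?_, fun hj z hz h0 => hk hj.le z hz h0, fun hj z hz => ?_⟩
  · rw [← idem z]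
    refine hk hj.le _ (act_mem0 C hp.mem hz) ?_
    rw [cl_act H]
    exact hp.kills (2 * (j : ℤ)) (by omega) _ (H.cl_mem hz)
  · match j, hj, hz with
    | 0, hj, _ => omega
    | 1, _, hz => rw [hN.abel P z hz, C.act_map_zero]
    | j + 2, hj, hz => exact h2 (by omega) hj _ (stable0 hN hp.mem hz) (idem z)

end Pool.Agent.Q187.AJ
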