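import Pool.Agent.Q187.AJ.Part

/-!
# Vanishing above the middle from the injectivity of the Abel-Jacobi maps
-/

open CategoryTheory AlgebraicGeometry

universe u v w

namespace Pool.Agent.Q187.AJ

open Pool.Agent.H914 Pool.Agent.H914.VarClass Pool.Agent.H914.VarClass.Obj Pool.Agent.W492.BB
  Pool.Agent.W550.Corr Pool.Agent.TH133 Pool.Agent.Y148.BB

set_option linter.unusedSectionVars false
set_option linter.unusedVariables false

variable {k : Type u} [Field k] {𝒱 : VarClass k}

variable {C : TheoryData.{u, v, 0} 𝒱 ℚ} [hC : IsChowProj C] {K : Type w} [Field K]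
  {H : WeilTheoryData.{u, v, w} C K} [hH : IsWeilProj H] {X Y Z W T P S : 𝒱.Obj}
  {N : ∀ X : 𝒱.Obj, ℕ → Submodule ℚ (C.A X)}

include hC hH

lemma kills_of_cl {Γ : C.A (X.prod Y)} (h : H.cl Γ = 0) (m : ℤ) : Kills H Γ m := by
  intro a _
  rw [h, TheoryData.act_zero]

lemma eq_zero_of_span {Γ : C.A (X.prod Y)} {s : Set (C.A X)} {y : C.A X}
    (hy : y ∈ Submodule.span ℚ s) (h : ∀ c ∈ s, C.act Γ c = 0) : C.act Γ y = 0 := by
  have h1 : Submodule.span ℚ s ≤ LinearMap.ker (C.actL Γ) :=
    Submodule.span_le.2 fun c hc => LinearMap.mem_ker.2 (h c hc)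
  exact LinearMap.mem_ker.1 (h1 hy)

variable (hN : IsAbelJacobiKernel H N)
include hN

/-- The step along a curve: fibres and the theorem of Bloch and Srinivas. -/
lemma core_curve (hF : FibreProperty C) {n j : ℕ} {p : C.A (P.prod P)} (hp : IsPure H n P p)
    {o : C.A T} (hT : T.dim = 1) (ho : C.Deg 1 o) (hd : HasDegree C o 1)
    (h1 : ∀ w ∈ N P j, C.act p w = 0) (h2 : ∀ x, C.Deg ((j : ℤ) - 1) x → C.act p x = 0)
    {y : C.A (P.prod T)} (hy : C.Deg j y) (h0 : H.cl y = 0)
    (hyy : C.act (tens C p (oddProj C o)) y = y) : y = 0 := by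
  have hr : IsPure H 1 T (oddProj C o) := isPure_odd hT ho hd
  have hy1 : y = C.comp (C.comp p y) (oddProj C o) := by
    rw [← act_curry p (oddProj C o) hp.self, hyy]
  have htp : tp C y = C.comp (oddProj C o) (C.comp (tp C y) p) := by
    conv_lhs => rw [hy1]
    rw [tp_comp C (ch_comm C), tp_comp C (ch_comm C), hr.self, hp.self]
  have fib : ∀ t : C.A T, C.Deg 1 t → C.down (fst P T) (C.mul y (C.up (snd P T) t)) = 0 := by
    intro t ht
    have e1 : C.down (fst P T) (C.mul y (C.up (snd P T) t)) = C.act (tp C y) t :=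
      (act_tp C y t).symm
    rw [e1, htp, C.act_comp, C.act_comp]
    apply h1
    have h3 : C.Deg (T.dim + (j : ℤ) - (1 : ℕ)) (tp C y) := by
      have := tp_mem C hy
      rw [hT]
      have e : ((1 : ℕ) : ℤ) + j - ((1 : ℕ) : ℤ) = j := by ring
      rw [e]
      exact this
    refine hN.kills T P 1 j (tp C y) h3 ?_ _ ?_ ?_
    · apply kills_of_cl
      rw [cl_tp, h0, tp_zero]
    · have := act_mem0 C hr.mem (i := 1) (x := t) (by exact_mod_cast ht)
      exact_mod_cast this
    · rw [cl_act H]
      refine hr.kills 2 (by norm_num) _ ?_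
      have := H.cl_mem (C := C) (X := T) ht
      simpa using this
  have hspan := hF P T j y hT hy fib
  rw [← hyy]
  refine eq_zero_of_span (H := H) hspan ?_
  rintro c ⟨x, t, hx, ht, rfl⟩
  rw [act_tens_ext C p _ (fun f c => ch_comm C _ _), h2 x hx, TheoryData.ext_zero_left]

/-- The step along a surface: restriction to the members of a pencil of curves. -/
lemma core_surface {n j : ℕ} {p : C.A (P.prod P)} (hp : IsPure H n P p) {q : C.A (S.prod S)}
    {x : C.A S} (hq : IsSurf H S q x)
    (h1 : ∀ (T : 𝒱.Obj) (o : C.A T), T.dim = 1 → C.Deg 1 o → HasDegree C o 1 →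
      ∀ w ∈ N (P.prod T) j, C.act (tens C p (oddProj C o)) w = 0)
    (h2 : ∀ (T : 𝒱.Obj) (o : C.A T), T.dim = 1 → C.Deg 1 o → HasDegree C o 1 →
      ∀ w, C.Deg ((j : ℤ) - 1) w → C.act (tens C p (oddProj C o)) w = 0)
    (h3 : ∀ w, C.Deg ((j : ℤ) - 2) w → C.act p w = 0)
    {y : C.A (P.prod S)} (hy : C.Deg j y) (hyN : y ∈ N (P.prod S) j)
    (hyy : C.act (tens C p q) y = y) : y = 0 := by
  have hdq := hq.pure.dim
  have hy1 : y = C.comp (C.comp p y) q := by
    rw [← act_curry p q hp.self, hyy]
  -- the push-forward of the fundamental class of a curve is a divisor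
  have hdiv : ∀ (T : 𝒱.Obj) (i : T ⟶ S), T.dim = 1 → C.act q (C.push i 1) = 0 := by
    intro T i hT
    apply hq.divisor
    have := C.push_mem i (C.one_mem T)
    rw [hT, hdq] at this
    norm_num at this
    exact this
  have hdec : ∀ (T : 𝒱.Obj) (o : C.A T), dg C T = C.ext o 1 + oddProj C o + C.ext 1 o := by
    intro T o
    rw [oddProj]
    abel
  have hres : ∀ (T : 𝒱.Obj) (i : T ⟶ S) (o : C.A T), T.dim = 1 → C.Deg 1 o → HasDegree C o 1 →
      C.down i o = x → C.up (prodMap (𝟙 P) i) y = 0 := by
    intro T i o hT ho hd hix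
    have hr : IsPure H 1 T (oddProj C o) := isPure_odd hT ho hd
    -- the restriction of `q` to the curve
    have ht : C.comp (C.comp q (tp C (C.graph i))) (oddProj C o) =
        C.comp q (tp C (C.graph i)) := by
      have e1 : ∀ a : C.A T, C.act (tp C (C.comp q (tp C (C.graph i)))) a =
          C.act q (C.push i a) := by
        intro a
        rw [tp_comp C (ch_comm C), tp_tp, hq.pure.self, C.act_comp, C.act_graph]
      have hix' : C.push i o = x := hix
      have e2 : C.comp (C.comp q (tp C (C.graph i))) (C.ext o (1 : C.A T)) = 0 := by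
        rw [comp_ext, e1, hix', hq.point, TheoryData.ext_zero_left]
      have e3 : C.comp (C.comp q (tp C (C.graph i))) (C.ext (1 : C.A T) o) = 0 := by
        rw [comp_ext, e1, hdiv T i hT, TheoryData.ext_zero_left]
      have e4 := comp_dg C (C.comp q (tp C (C.graph i)))
      rw [hdec T o, comp_add, comp_add, e2, e3, zero_add, add_zero] at e4
      exact e4
    have e5 : C.up (prodMap (𝟙 P) i) y = C.comp (C.comp p y) (C.comp q (tp C (C.graph i))) := by
      have e6 : C.up (prodMap (𝟙 P) i) y = C.comp y (tp C (C.graph i)) := pull_eq_comp i y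
      rw [e6]
      conv_lhs => rw [hy1]
      rw [comp_assoc C (C.comp p y)]
    have e7 : C.act (tens C p (oddProj C o)) (C.up (prodMap (𝟙 P) i) y) =
        C.up (prodMap (𝟙 P) i) y := by
      rw [act_curry p _ hp.self, e5, ← comp_assoc C p, ← comp_assoc C p, hp.idem,
        comp_assoc C _ _ (oddProj C o), ht]
    rw [← e7]
    apply h1 T o hT ho hd
    have h4 := hN.stable (P.prod S) (P.prod T) j j (C.cograph (prodMap (𝟙 P) i)) (by
      have := cograph_mem (C := C) (prodMap (𝟙 P) i)
      simpa using this) y hyN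
    rw [C.act_cograph] at h4
    exact h4
  have hspan := hq.pencil P j y hy hres
  rw [← hyy]
  refine eq_zero_of_span (H := H) hspan ?_
  rintro c ⟨T, i, w, hT, hw, rfl⟩
  obtain ⟨o, ho', ho1, ho2⟩ := exists_deg_one C T
  have ho : C.Deg 1 o := by
    rw [hT] at ho'
    exact_mod_cast ho'
  have hd : HasDegree C o 1 := fun Y => by
    rw [one_smul]
    exact ⟨ho2 Y, ho1 Y⟩
  have e1 : C.down (prodMap (𝟙 P) i) w = C.comp w (C.graph i) := (comp_graph i w).symm
  have e2 : C.act (tens C p q) (C.down (prodMap (𝟙 P) i) w) =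
      C.comp (C.comp p w) (C.comp (C.graph i) q) := by
    rw [e1, act_curry p q hp.self, ← comp_assoc C p, comp_assoc C]
  have e3 : C.comp (C.graph i) q = C.comp (oddProj C o) (C.comp (C.graph i) q) +
      C.ext 1 (C.act (C.comp (C.graph i) q) o) := by
    have e4 := dg_comp C (C.comp (C.graph i) q)
    have e5 : C.comp (C.ext o (1 : C.A T)) (C.comp (C.graph i) q) = 0 := by
      rw [ext_comp, C.act_comp, C.act_graph, hdiv T i hT, TheoryData.ext_zero_right]
    rw [hdec T o, add_comp, add_comp, e5, zero_add, ext_comp 1 o] at e4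
    exact e4.symm
  have e6 : C.comp (C.comp p w) (C.comp (oddProj C o) (C.comp (C.graph i) q)) = 0 := by
    have e7 := h2 T o hT ho hd w hw
    rw [act_curry p _ hp.self] at e7
    rw [← comp_assoc C, e7, zero_comp]
  have e8 : C.act (tp C (C.comp p w)) (1 : C.A T) = 0 := by
    rw [tp_comp C (ch_comm C), hp.self, C.act_comp]
    apply h3
    have h5 : tp C w ∈ C.gr (T.prod P) (T.dim + ((j : ℤ) - 2)) := by
      have h6 := tp_mem C (Γ := w) hw
      rw [hT]
      have e : ((1 : ℕ) : ℤ) + ((j : ℤ) - 2) = j - 1 := by push_cast; ring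
      rw [e]
      exact h6
    have h7 := act_mem' C h5 (C.one_mem T)
    rw [zero_add] at h7
    exact h7
  rw [e2, e3, comp_add, e6, zero_add, comp_ext, e8, TheoryData.ext_zero_left]

variable {Q : ∀ S : 𝒱.Obj, C.A (S.prod S) → Prop}

/-- The main reduction: injectivity of the Abel-Jacobi maps in weight `2 j - 1` and codimension
`j ≤ d` implies the vanishing of the Chow groups of the motives of higher weight. -/
theorem pv_all (hF : FibreProperty C) (hQ : ∀ S q, Q S q → IsTranscendental H S q) {d : ℕ}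
    (hI : InjectiveUpTo Q N d) : ∀ j ≤ d, ∀ (n : ℕ) (P : 𝒱.Obj) (p : C.A (P.prod P)),
      IsPart Q n P p → PV H N n P p j := by
  intro j
  induction j using Nat.strong_induction_on with
  | _ j ihj =>
  intro hjd n
  induction n using Nat.strong_induction_on with
  | _ n ihn =>
  intro P p hp
  -- negative or smaller codimension
  have hlow : ∀ (m : ℕ) (P : 𝒱.Obj) (p : C.A (P.prod P)), IsPart Q m P p → ∀ e : ℕ, 1 ≤ e →
      2 * j < m + 2 * e → ∀ w, C.Deg ((j : ℤ) - e) w → C.act p w = 0 := by
    intro m P p hp e he hm w hw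
    by_cases hje : j < e
    · have h1 : w ∈ C.gr P ((j : ℤ) - e) := hw
      rw [C.gr_neg P _ (by omega), Submodule.mem_bot] at h1
      rw [h1, C.act_map_zero]
    · refine (ihj (j - e) (by omega) (by omega) m P p hp).big (by omega) w ?_
      have e1 : (((j - e : ℕ)) : ℤ) = (j : ℤ) - e := by omega
      rw [e1]
      exact hw
  have hpure := isPure_part hQ hp
  refine pv_of hN hpure (fun hj y hy hyN hyy => ?_) (fun hj2 hj y hyN hyy => ?_)
  · cases hp with
    | factor _ T r hr =>
      -- a single factor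
      have h0 : C.Deg ((0 : ℕ) : ℤ) y → y = 0 := by
        intro h
        obtain ⟨c, rfl⟩ := hC.gr_zero _ y (by simpa using h)
        rw [← hyy, act_map_smul, hpure.one, smul_zero]
      cases hr with
      | curve _ o hT ho hd =>
        obtain rfl : j = 0 := by omega
        exact h0 hy
      | surface _ _ h =>
        obtain ⟨x, hx⟩ := isSurf_of (hQ _ _ h)
        have : j = 0 ∨ j = 1 := by omega
        rcases this with rfl | rfl
        · exact h0 hy
        · rw [← hyy]
          exact hx.divisor y (by simpa using hy)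
    | prod n' m P' T p' r hp' hr =>
      have hp'' := isPure_part hQ hp'
      cases hr with
      | curve _ o hT ho hd =>
        refine core_curve hN hF hp'' hT ho hd (fun w hw => ?_) (fun w hw => ?_) hy
          (hN.deg _ j y hyN).2 hyy
        · exact PV.of_le hN (ihn n' (by omega) P' p' hp') (by omega) hw
        · exact hlow n' P' p' hp' 1 le_rfl (by omega) w (by exact_mod_cast hw)
      | surface _ _ h =>
        obtain ⟨x, hx⟩ := isSurf_of (hQ _ _ h)
        have hpt : ∀ (T : 𝒱.Obj) (o : C.A T), T.dim = 1 → C.Deg 1 o → HasDegree C o 1 →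
            IsPart Q (n' + 1) (P'.prod T) (tens C p' (oddProj C o)) := fun T o hT ho hd =>
          IsPart.prod n' 1 P' T p' _ hp' (IsFactor.curve T o hT ho hd)
        refine core_surface hN hp'' hx (fun T o hT ho hd w hw => ?_)
          (fun T o hT ho hd w hw => ?_) (fun w hw => ?_) hy hyN hyy
        · exact PV.of_le hN (ihn (n' + 1) (by omega) _ _ (hpt T o hT ho hd)) (by omega) hw
        · exact hlow (n' + 1) _ _ (hpt T o hT ho hd) 1 le_rfl (by omega) w (by exact_mod_cast hw)
        · exact hlow n' P' p' hp' 2 (by norm_num) (by omega) w (by exact_mod_cast hw)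
  · refine hI j hj2 hjd P p ?_ y hyN hyy
    have e : n = 2 * j - 1 := by omega
    rw [← e]
    exact hp

end Pool.Agent.Q187.AJ
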